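import Pool.Agent.H37.BP.Sys

/-! The conditions can be satisfied if the given system is solvable. -/

set_option autoImplicit false

namespace Pool.Agent.H37.BP

open Finset Polynomial

variable {D m n : ℕ}

/-- The columns of the polynomial. -/
noncomputable def cl (D m n : ℕ) (d : ℕ → ℕ → ℝ) (h : ℕ → ℝ) (c : ℕ) : ℝ[X] :=
  if c ≤ n then C (h c) * Gp D m n c
  else if c ≤ n + m then ∑ j ∈ range (n + 1), C (-ro D m n d (c - (n + 1)) j *
      (w D c / w D j) * ((Gp D m n j).eval (rw' n (c - (n + 1)) j : ℝ) * h j)) *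
      lp D (rw' n (c - (n + 1)) j)
  else 0

theorem cl_deg (hD : (m + 1) * (n + 1) ≤ D + 1) (d : ℕ → ℕ → ℝ) (h : ℕ → ℝ) (c : ℕ) :
    (cl D m n d h c).natDegree ≤ D := by
  unfold cl
  split_ifs with h1 h2
  · exact (natDegree_C_mul_le _ _).trans (Gp_deg hD h1)
  · refine natDegree_sum_le_of_forall_le _ _ fun j hj => ?_
    refine (natDegree_C_mul_le _ _).trans (lp_deg ?_)
    have := rw'_lt (show c - (n + 1) ≤ m by omega) (show j ≤ n by
      have := mem_range.1 hj
      omega)
    omega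
  · simp

theorem cl_le {c : ℕ} (hc : c ≤ n) (d : ℕ → ℕ → ℝ) (h : ℕ → ℝ) (x : ℝ) :
    (cl D m n d h c).eval x = (Gp D m n c).eval x * h c := by
  unfold cl
  rw [if_pos hc, eval_mul, eval_C]
  ring

theorem cl_mid {i : ℕ} (hi : i < m) (d : ℕ → ℕ → ℝ) (h : ℕ → ℝ) (x : ℝ) :
    (cl D m n d h (n + 1 + i)).eval x = ∑ j ∈ range (n + 1), (-ro D m n d i j *
      (w D (n + 1 + i) / w D j) * ((Gp D m n j).eval (rw' n i j : ℝ) * h j)) *
      lg D (rw' n i j) x := by
  unfold cl
  rw [if_neg (by omega), if_pos (by omega), eval_finsetSum, show n + 1 + i - (n + 1) = i by omega]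
  refine sum_congr rfl fun j _ => ?_
  rw [eval_mul, eval_C, lp_eval]

theorem cl_gt {c : ℕ} (hc : n + m < c) (d : ℕ → ℕ → ℝ) (h : ℕ → ℝ) (x : ℝ) :
    (cl D m n d h c).eval x = 0 := by
  unfold cl
  rw [if_neg (by omega), if_neg (by omega), eval_zero]

theorem ev_cl (hD : (m + 1) * (n + 1) ≤ D + 1) (d : ℕ → ℕ → ℝ) (h : ℕ → ℝ) {c : ℕ} (hc : c ≤ D)
    (y : ℝ) : ev D (mk D m (cl D m n d h)) (c : ℝ) (m + y) = (cl D m n d h c).eval y := by
  rw [ev_mk (cl_deg hD d h), sum_eq_single c]
  · rw [lg_self hc, one_mul, add_sub_cancel_left]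
  · intro c' hc' hne
    rw [lg_ne hc (Ne.symm hne), zero_mul]
  · intro h
    exact absurd (mem_range.2 (by omega)) h

theorem back (hD : (m + 1) * (n + 1) ≤ D + 1) (hc : n + m ≤ D)
    (hp : ∃ X, D = rw' n m n + m + 2 * X) {d : ℕ → ℕ → ℝ}
    (hρ : ∀ i < m, ∀ j ≤ n, |ro D m n d i j| * (4 * ((D : ℝ) + 1)) ≤ 1) {H : ℕ → ℝ}
    (hn : 0 < H n) (hH : ∀ i < m, 0 ≤ ∑ j ∈ range (n + 1), d i j * H j) :
    ∃ z, Sys D m n d z := by
  have hs := norm_sign hD hc hp
  let τ : ℝ := 1 / (sg D m n * w D n * (Gp D m n n).eval (rw' n m n : ℝ) * H n)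
  have hτ : 0 < τ := one_div_pos.2 (mul_pos hs hn)
  let h : ℕ → ℝ := fun j => τ * (sg D m n * (w D j * H j))
  have hrD : ∀ {i j : ℕ}, i ≤ m → j ≤ n → rw' n i j ≤ D := by
    intro i j hi hj
    have := rw'_lt hi hj
    omega
  refine ⟨mk D m (cl D m n d h), ?_, ?_, ?_, ?_, ?_⟩
  · intro c hcD r hr hpat
    rw [ev_cl hD d h hcD]
    by_cases h1 : c ≤ n
    · rw [cl_le h1, Gp_zero, zero_mul]
      unfold Zs
      rw [mem_sdiff]
      refine ⟨mem_range.2 (by omega), fun h2 => hpat ?_⟩
      obtain ⟨i, hi, rfl⟩ := mem_image.1 h2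
      have hi := mem_range.1 hi
      exact Or.inl ⟨h1, rw'_lt (by omega) h1, rw'_mod h1⟩
    · by_cases h2 : c ≤ n + m
      · obtain ⟨i, rfl⟩ : ∃ i, c = n + 1 + i := ⟨c - (n + 1), by omega⟩
        rw [cl_mid (by omega)]
        refine sum_eq_zero fun j hj => ?_
        have hj : j ≤ n := by have := mem_range.1 hj; omega
        rw [lg_ne hr, mul_zero]
        intro h3
        refine hpat (Or.inr ⟨by omega, by omega, ?_⟩)
        rw [h3, rw'_div hj]
        omega
      · rw [cl_gt (by omega)]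
  · intro j hj l hl
    have e : (l : ℝ) = m + ((l : ℝ) - m) := by ring
    rw [e, ev_cl hD d h (by omega), cl_le hj, Gp_zero' hl, zero_mul]
  · intro i hi j hj
    rw [← rowP_eval]
    refine (row_rel (D := D) (c₁ := j) (c₂ := n + 1 + i) (by omega) (by omega)
      (P := rowP D (mk D m (cl D m n d h)) (m + (rw' n i j : ℝ))) (rowP_deg _ _ _)
      (fun c hcD h1 h2 => ?_) (hρ i hi j hj)).2 ?_
    · rw [rowP_eval, ev_cl hD d h hcD]
      by_cases h3 : c ≤ n
      · rw [cl_le h3, Gp_zero, zero_mul]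
        unfold Zs
        rw [mem_sdiff]
        refine ⟨mem_range.2 (by have := hrD hi.le hj; omega), fun h4 => h1 ?_⟩
        obtain ⟨i', hi', h5⟩ := mem_image.1 h4
        have h6 := rw'_mod (i := i') h3
        have h7 := rw'_mod (i := i) hj
        rw [← h6, ← h7]
        exact congrArg (fun t => t % (n + 1)) h5
      · by_cases h4 : c ≤ n + m
        · obtain ⟨i', rfl⟩ : ∃ i', c = n + 1 + i' := ⟨c - (n + 1), by omega⟩
          rw [cl_mid (by omega)]
          refine sum_eq_zero fun j' hj' => ?_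
          have hj' : j' ≤ n := by have := mem_range.1 hj'; omega
          rw [lg_ne (hrD hi.le hj), mul_zero]
          intro h5
          have h6 := rw'_div (i := i) hj
          rw [h5, rw'_div hj'] at h6
          exact h2 (by omega)
        · rw [cl_gt (by omega)]
    · rw [rowP_eval, rowP_eval, ev_cl hD d h (by omega), ev_cl hD d h (by omega), cl_mid hi,
        cl_le hj, sum_eq_single j]
      · rw [lg_self (hrD hi.le hj), mul_one]
      · intro j' hj' hne
        rw [lg_ne (hrD hi.le hj), mul_zero]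
        intro h5
        have h6 := rw'_mod (i := i) hj
        rw [h5, rw'_mod (show j' ≤ n by have := mem_range.1 hj'; omega)] at h6
        exact hne h6
      · intro h5
        exact absurd (mem_range.2 (by omega)) h5
  · intro i hi
    rw [ev_cl hD d h (by omega), cl_mid hi]
    have e : ∑ j ∈ range (n + 1), (-ro D m n d i j *
        (w D (n + 1 + i) / w D j) * ((Gp D m n j).eval (rw' n i j : ℝ) * h j)) *
        lg D (rw' n i j) ((D : ℝ) + 1) =
        τ * ((sg D m n * La D m n i) * ∑ j ∈ range (n + 1), d i j * H j) := by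
      rw [mul_sum, mul_sum]
      refine sum_congr rfl fun j hj => ?_
      have hj : j ≤ n := by have := mem_range.1 hj; omega
      rw [term_eq hD hi hj hc]
      have h1 := w_ne (show j ≤ D by omega)
      simp only [h]
      field_simp
    rw [e]
    exact mul_nonneg hτ.le (mul_nonneg (La_sign hi hc).le (hH i hi))
  · rw [ev_cl hD d h (by omega), cl_le le_rfl]
    refine le_of_eq ?_
    simp only [h, τ]
    have h1 : sg D m n * w D n * (Gp D m n n).eval (rw' n m n : ℝ) * H n ≠ 0 :=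
      (mul_pos hs hn).ne'
    rw [one_div, eq_comm]
    calc _ = (sg D m n * w D n * (Gp D m n n).eval (rw' n m n : ℝ) * H n)⁻¹ *
          (sg D m n * w D n * (Gp D m n n).eval (rw' n m n : ℝ) * H n) := by ring
      _ = 1 := inv_mul_cancel₀ h1

end Pool.Agent.H37.BP
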