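import Pool.Agent.H37.BP.Help

set_option autoImplicit false

/-! The program which writes the new system. -/

namespace Pool.Agent.H37.BP

open Pool.Agent.NPC Pool.Agent.H558R2 Pool.Agent.H622R3.SM
open Pool.Agent.R533.GU Pool.Agent.K7.H40.NU
open Pool.Agent.K7.H40.PU (pr1 V1 V1_D0 pr1_good pr1_dst th dd abs_dd_le th_pos exV sm_th hg)
open Pool.Agent.H37.HO (prI prP prI_dst prP_dst sm_nat sm_natpow)

variable {D m n : ℕ} (E : ℕ) (A : Matrix (Fin m) (Fin n) ℝ) (b : Fin m → ℝ)

/-- The register of a power of the first coordinate. -/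
def xr (D m n I s : ℕ) : Reg :=
  if tR D m n I then [24, qR D m n I, s] else [21, xc D m n I, s]

/-- The register of a power of the second coordinate. -/
def yr (D m n I s : ℕ) : Reg :=
  if sB D m n I then [22, yc D m n I, s] else [21, yc D m n I, s]

/-- The instruction for an entry. -/
def en (D m n I J : ℕ) : Instr :=
  ⟨Op.mul, [0, I, J], xr D m n I (J / (D + 1)), yr D m n I (J % (D + 1))⟩

/-- Writing the matrix. -/
def pr2a (D m n : ℕ) : List Instr :=
  (List.range (mB D m n * gB D)).map fun t => en D m n (t / gB D) (t % gB D)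

/-- Writing the right-hand side. -/
def pr2b (D m n : ℕ) : List Instr := (List.range (mB D m n)).map fun I =>
  ⟨Op.add, [1, I], if I + 1 = mB D m n then [2] else [3], [3]⟩

/-- Cleaning up. -/
def pr3 (E D m n : ℕ) : List Instr :=
  (pr1 E m n ++ prX D m n).map fun I => ⟨Op.sub, I.dst, [3], [3]⟩

/-- The program. -/
def prg (E D m n : ℕ) : List Instr :=
  pr1 E m n ++ (prX D m n ++ ((pr2a D m n ++ pr2b D m n) ++ pr3 E D m n))

/-- The values after the third part. -/
noncomputable def V2 (E D : ℕ) {m n : ℕ} (A : Matrix (Fin m) (Fin n) ℝ) (b : Fin m → ℝ) :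
    Reg → ℝ
  | [0, I, J] => start (nM E D A b) (vM D m n) [0, I, J]
  | [1, I] => start (nM E D A b) (vM D m n) [1, I]
  | [2] => 1
  | [3] => 0
  | [21, v, s] => (v : ℝ) ^ s
  | [22, v, s] => -(v : ℝ) ^ s
  | [24, q, s] => xq D m n (dd E A b) q ^ s
  | _ => 0

/-- The registers used in the third part. -/
def E2 (D m n : ℕ) : Set Reg :=
  {r | r = [2] ∨ r = [3] ∨ (∃ v s, v ≤ m + (D + 1) ∧ s < D + 1 ∧ r = [21, v, s]) ∨
    (∃ v s, v ≤ m + (D + 1) ∧ s < D + 1 ∧ r = [22, v, s]) ∨
    ∃ q s, q < m * (n + 1) ∧ s < D + 1 ∧ r = [24, q, s]}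

theorem gB_pos (D : ℕ) : 0 < gB D := by
  unfold gB
  positivity

theorem en_good (hD : (m + 1) * (n + 1) ≤ D + 1) (hc : n + m ≤ D) {I J : ℕ}
    (hI : I < mB D m n) (hJ : J < gB D) : IGood (V2 E D A b) (E2 D m n) (en D m n I J) := by
  have h1 : J / (D + 1) < D + 1 := Nat.div_lt_of_lt_mul (by exact hJ)
  have h2 : J % (D + 1) < D + 1 := Nat.mod_lt _ (by omega)
  have hx := xc_le (D := D) (m := m) (n := n) hc (I := I)
  have hy := yc_le hc hD (I := I)
  refine ⟨?_, ?_, ?_, nofun⟩
  · change xr D m n I (J / (D + 1)) ∈ _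
    unfold xr
    split_ifs with h
    · have hq : qR D m n I < m * (n + 1) := by
        unfold tR at h
        unfold qR
        omega
      exact Or.inr (Or.inr (Or.inr (Or.inr ⟨_, _, hq, h1, rfl⟩)))
    · exact Or.inr (Or.inr (Or.inl ⟨_, _, by omega, h1, rfl⟩))
  · change yr D m n I (J % (D + 1)) ∈ _
    unfold yr
    split_ifs with h
    · exact Or.inr (Or.inr (Or.inr (Or.inl ⟨_, _, hy, h2, rfl⟩)))
    · exact Or.inr (Or.inr (Or.inl ⟨_, _, hy, h2, rfl⟩))
  · have e : V2 E D A b [0, I, J] = (if sB D m n I then -1 else 1) *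
        (xv D m n (dd E A b) I ^ (J / (D + 1)) * (yc D m n I : ℝ) ^ (J % (D + 1))) := by
      change (if h : I < mB D m n ∧ J < gB D then nM E D A b ⟨I, h.1⟩ ⟨J, h.2⟩ else 0) = _
      rw [dif_pos ⟨hI, hJ⟩]
      rfl
    have ex : V2 E D A b (xr D m n I (J / (D + 1))) = xv D m n (dd E A b) I ^ (J / (D + 1)) := by
      unfold xr xv
      split_ifs <;> rfl
    have ey : V2 E D A b (yr D m n I (J % (D + 1))) = (if sB D m n I then -1 else 1) *
        (yc D m n I : ℝ) ^ (J % (D + 1)) := by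
      unfold yr
      split_ifs
      · change -(yc D m n I : ℝ) ^ (J % (D + 1)) = -1 * (yc D m n I : ℝ) ^ (J % (D + 1))
        ring
      · change (yc D m n I : ℝ) ^ (J % (D + 1)) = 1 * (yc D m n I : ℝ) ^ (J % (D + 1))
        ring
    change V2 E D A b [0, I, J] = V2 E D A b (xr D m n I (J / (D + 1))) *
      V2 E D A b (yr D m n I (J % (D + 1)))
    rw [e, ex, ey]
    ring

theorem pr2_good (hD : (m + 1) * (n + 1) ≤ D + 1) (hc : n + m ≤ D) :
    Good (V2 E D A b) (pr2a D m n ++ pr2b D m n) (E2 D m n) := by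
  have h2 : ([2] : Reg) ∈ E2 D m n := Or.inl rfl
  have h3 : ([3] : Reg) ∈ E2 D m n := Or.inr (Or.inl rfl)
  refine good_par fun I hI => ?_
  rcases List.mem_append.mp hI with hI | hI
  · obtain ⟨t, ht, rfl⟩ := List.mem_map.mp hI
    have ht := List.mem_range.mp ht
    exact en_good E A b hD hc (Nat.div_lt_of_lt_mul (by rwa [Nat.mul_comm]))
      (Nat.mod_lt _ (gB_pos D))
  · obtain ⟨t, ht, rfl⟩ := List.mem_map.mp hI
    have ht := List.mem_range.mp ht
    refine ⟨?_, h3, ?_, nofun⟩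
    · by_cases h : t + 1 = mB D m n
      · simp only [if_pos h]; exact h2
      · simp only [if_neg h]; exact h3
    · have e : V2 E D A b [1, t] = if t + 1 = mB D m n then 1 else 0 := by
        change (if h : t < mB D m n then vM D m n ⟨t, h⟩ else 0) = _
        rw [dif_pos ht]
        rfl
      simp only [e]
      by_cases h : t + 1 = mB D m n
      · simp only [if_pos h]
        change (1 : ℝ) = 1 + 0
        norm_num
      · simp only [if_neg h]
        change (0 : ℝ) = 0 + 0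
        norm_num

/-- The targets of the third part. -/
theorem pr2_dst (q : Reg) :
    q ∈ (pr2a D m n ++ pr2b D m n).map Instr.dst ↔
      (∃ I J, I < mB D m n ∧ J < gB D ∧ q = [0, I, J]) ∨ ∃ I, I < mB D m n ∧ q = [1, I] := by
  rw [List.map_append, List.mem_append]
  refine or_congr ?_ ?_
  · constructor
    · intro h
      obtain ⟨I, hI, rfl⟩ := List.mem_map.mp h
      obtain ⟨t, ht, rfl⟩ := List.mem_map.mp hI
      have ht := List.mem_range.mp ht
      exact ⟨_, _, Nat.div_lt_of_lt_mul (by rwa [Nat.mul_comm]), Nat.mod_lt _ (gB_pos D), rfl⟩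
    · rintro ⟨I, J, hI, hJ, rfl⟩
      refine List.mem_map.mpr ⟨en D m n I J, List.mem_map.mpr ⟨gB D * I + J, ?_, ?_⟩, rfl⟩
      · rw [List.mem_range]
        have h1 : gB D * (I + 1) ≤ gB D * mB D m n := Nat.mul_le_mul_left _ hI
        rw [Nat.mul_succ] at h1
        rw [Nat.mul_comm (mB D m n) (gB D)]
        omega
      · rw [Nat.mul_add_div (gB_pos D), Nat.div_eq_of_lt hJ, add_zero, Nat.mul_add_mod,
          Nat.mod_eq_of_lt hJ]
  · constructor
    · intro h
      obtain ⟨I, hI, rfl⟩ := List.mem_map.mp h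
      obtain ⟨t, ht, rfl⟩ := List.mem_map.mp hI
      exact ⟨t, List.mem_range.mp ht, rfl⟩
    · rintro ⟨I, hI, rfl⟩
      exact List.mem_map.mpr ⟨_, List.mem_map.mpr ⟨I, List.mem_range.mpr hI, rfl⟩, rfl⟩

/-- The values computed. -/
noncomputable def vls (E D : ℕ) {m n : ℕ} (A : Matrix (Fin m) (Fin n) ℝ) (b : Fin m → ℝ) :
    List ℝ :=
  ((pr1 E m n).map fun I => V1 E A b I.dst) ++
    (((prX D m n).map fun I => VX D m n (dd E A b) I.dst) ++
    (((pr2a D m n ++ pr2b D m n).map fun I => V2 E D A b I.dst) ++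
    ((pr3 E D m n).map fun _ => (0 : ℝ))))

/-- **The program writes the new system.** -/
theorem exec_prg (hD : (m + 1) * (n + 1) ≤ D + 1) (hc : n + m ≤ D)
    (hρ : ∀ q ≤ D, rq D m n (dd E A b) q ≠ 1) : exec (prg E D m n) (start A b) =
    some (start (nM E D A b) (vM D m n), vls E D A b) := by
  unfold prg
  have h1 := exec_good (V1 E A b) (pr1 E m n) D0 (start A b) (V1_D0 _ A b) (pr1_good _ A b)
  rw [TELIM.exec_append _ _ _ _ _ h1]
  have nm1 : ∀ q : Reg, (∀ a l, q = a :: l → a < 4) → q ∉ (pr1 E m n).map Instr.dst := by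
    intro q hq h
    obtain ⟨a, l, g1, g2⟩ := pr1_dst E _ h
    have := hq a l g1
    omega
  have nmX : ∀ q : Reg, (∀ a l, q = a :: l → a < 20) → q ∉ (prX D m n).map Instr.dst := by
    intro q hq h
    obtain ⟨a, l, g1, g2⟩ := prX_dst _ h
    have := hq a l g1
    omega
  have n12 := nm1 [2] (fun a l h => by simp only [List.cons.injEq] at h; omega)
  have n13 := nm1 [3] (fun a l h => by simp only [List.cons.injEq] at h; omega)
  have nX2 := nmX [2] (fun a l h => by simp only [List.cons.injEq] at h; omega)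
  have nX3 := nmX [3] (fun a l h => by simp only [List.cons.injEq] at h; omega)
  have h2 := exec_good (VX D m n (dd E A b)) (prX D m n) (S0 m n)
    (fun q => if q ∈ (pr1 E m n).map Instr.dst then V1 E A b q else start A b q) (by
      rintro q (rfl | rfl | ⟨t, ht, rfl⟩)
      · rw [if_neg n12]
        rfl
      · rw [if_neg n13]
        rfl
      · rw [if_pos]
        · rfl
        · refine List.mem_map.mpr ⟨⟨Op.mul, [11, t], [9], [4, t]⟩, ?_, rfl⟩
          simp only [pr1, List.mem_append]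
          iterate 9 refine Or.inr ?_
          exact List.mem_map.mpr ⟨t, List.mem_range.mpr ht, rfl⟩) (prX_good hD hc hρ)
  rw [TELIM.exec_append _ _ _ _ _ h2]
  have h4 := exec_good (V2 E D A b) (pr2a D m n ++ pr2b D m n) (E2 D m n)
    (fun q => if q ∈ (prX D m n).map Instr.dst then VX D m n (dd E A b) q else
      if q ∈ (pr1 E m n).map Instr.dst then V1 E A b q else start A b q) (by
      rintro q (rfl | rfl | ⟨v, s, hv, hs, rfl⟩ | ⟨v, s, hv, hs, rfl⟩ | ⟨v, s, hv, hs, rfl⟩)
      · rw [if_neg nX2, if_neg n12]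
        rfl
      · rw [if_neg nX3, if_neg n13]
        rfl
      · rw [if_pos (x21 hv hs)]
        rfl
      · rw [if_pos (x22 hv hs)]
        rfl
      · rw [if_pos (x24 hv hs)]
        rfl) (pr2_good E A b hD hc)
  rw [TELIM.exec_append _ _ _ _ _ h4]
  have h5 : Good (fun _ => (0 : ℝ)) (pr3 E D m n) {[3]} := by
    refine good_par fun I hI => ?_
    obtain ⟨J, -, rfl⟩ := List.mem_map.mp hI
    refine ⟨rfl, rfl, ?_, nofun⟩
    change (0 : ℝ) = 0 - 0
    norm_num
  rw [exec_good _ _ {[3]} _ ?_ h5]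
  · simp only [Option.map_some, Option.some.injEq, Prod.mk.injEq]
    refine ⟨?_, ?_⟩
    · have ed : (pr3 E D m n).map Instr.dst = (pr1 E m n).map Instr.dst ++
          (prX D m n).map Instr.dst := by
        unfold pr3
        rw [List.map_map, ← List.map_append]
        rfl
      rw [ed]
      have hn : n ≤ gB D := by
        unfold gB
        nlinarith
      have hm : m ≤ mB D m n := by unfold mB; omega
      funext q
      by_cases c1 : q ∈ (pr1 E m n).map Instr.dst ++ (prX D m n).map Instr.dst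
      · rw [if_pos c1]
        obtain ⟨a, l, rfl, g2⟩ : ∃ a l, q = a :: l ∧ 4 ≤ a := by
          rcases List.mem_append.mp c1 with h | h
          · exact pr1_dst E _ h
          · obtain ⟨a, l, g1, g2⟩ := prX_dst _ h
            exact ⟨a, l, g1, by omega⟩
        obtain ⟨a, rfl⟩ : ∃ a', a = a' + 4 := ⟨a - 4, by omega⟩
        rfl
      · rw [if_neg c1]
        rw [List.mem_append, not_or] at c1
        simp only [if_neg c1.1, if_neg c1.2]
        by_cases c2 : q ∈ (pr2a D m n ++ pr2b D m n).map Instr.dst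
        · rw [if_pos c2]
          rcases (pr2_dst q).mp c2 with ⟨I, J, -, -, rfl⟩ | ⟨I, -, rfl⟩ <;> rfl
        · rw [if_neg c2]
          rw [pr2_dst, not_or] at c2
          obtain ⟨c3, c4⟩ := c2
          unfold start
          split
          · rename_i i j
            rw [dif_neg, dif_neg]
            · exact fun h => c3 ⟨i, j, h.1, h.2, rfl⟩
            · exact fun h => c3 ⟨i, j, by omega, by omega, rfl⟩
          · rename_i i
            rw [dif_neg, dif_neg]
            · exact fun h => c4 ⟨i, h, rfl⟩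
            · exact fun h => c4 ⟨i, by omega, rfl⟩
          · rfl
          · rfl
    · rfl
  · rintro q rfl
    rw [if_neg, if_neg nX3, if_neg n13]
    · rfl
    · rw [pr2_dst]
      rintro (⟨I, J, -, -, h⟩ | ⟨I, -, h⟩)
      · simp at h
      · simp at h

/-! ### Encoding lengths -/

/-- The bound for the values. -/
def sS (B Q : ℕ) : ℕ := 2 * B + 4 * Q + 4 * (Q * Q) + 4

/-- The bound. -/
def hB (E D m n L : ℕ) : ℕ :=
  sS (hg E m n L) (m + D + 2) * (D + 2) + (m + D + 2) * (D + 2) + 1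

variable {E A b}

theorem sm_fact (t : ℕ) : Sm ((t + 1) * (t + 1)) ((t.factorial : ℕ) : ℝ) := by
  induction t with
  | zero => exact (by simpa using sm_one : Sm 1 (((0 : ℕ).factorial : ℕ) : ℝ)).mono (by omega)
  | succ t ih =>
    rw [Nat.factorial_succ]
    push_cast
    have h1 := sm_nat (t + 1)
    push_cast at h1
    refine (h1.mul ih).mono ?_
    nlinarith

theorem sm_powx {h : ℕ} {x : ℝ} (hx : Sm h x) (s : ℕ) : Sm (h * s + 1) (x ^ s) := by
  induction s with
  | zero => exact (by simpa using sm_one : Sm 1 (x ^ 0)).mono (by omega)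
  | succ s ih =>
    rw [pow_succ]
    refine (ih.mul hx).mono ?_
    rw [Nat.mul_succ]
    omega

theorem sm_natpow' {v s P : ℕ} (hv : v ≤ m + (D + 1)) (hs : s < D + 1) (hP : P = m + D + 2) :
    Sm (P * (D + 2)) ((v : ℝ) ^ s) :=
  (sm_natpow v s).mono (Nat.mul_le_mul (by omega) (by omega))

theorem sm_VX {L : ℕ} (hA : ∀ i j, Sm L (ext A b i j)) (hD : (m + 1) * (n + 1) ≤ D + 1)
    (hc : n + m ≤ D) (hρ : ∀ q ≤ D, rq D m n (dd E A b) q ≠ 1) {q : ℕ} (hq : q < m * (n + 1)) :
    Sm (sS (hg E m n L) (m + D + 2)) (((D + 1 - q : ℕ) : ℝ) * (q.factorial : ℝ)) ∧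
    Sm (sS (hg E m n L) (m + D + 2))
      (((D + 1 - q : ℕ) : ℝ) * (q.factorial : ℝ) / ((q + m).factorial : ℝ)) ∧
    Sm (sS (hg E m n L) (m + D + 2)) (rq D m n (dd E A b) q) ∧
    Sm (sS (hg E m n L) (m + D + 2)) (rq D m n (dd E A b) q *
      ((n + 1 + q / (n + 1) - q % (n + 1) : ℕ) : ℝ)) ∧
    Sm (sS (hg E m n L) (m + D + 2)) (1 - rq D m n (dd E A b) q) ∧
    Sm (sS (hg E m n L) (m + D + 2)) (rq D m n (dd E A b) q *
      ((n + 1 + q / (n + 1) - q % (n + 1) : ℕ) : ℝ) / (1 - rq D m n (dd E A b) q)) ∧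
    Sm (sS (hg E m n L) (m + D + 2)) (xq D m n (dd E A b) q) := by
  obtain ⟨q3, q4⟩ := q_lt hq
  have q5 := Nat.zero_le (q / (n + 1))
  have q1 : q ≤ D ∧ q + m + 1 ≤ m + D + 2 := by
    have : (m + 1) * (n + 1) = m * (n + 1) + (n + 1) := by ring
    omega
  have hdd : Sm (hg E m n L) (dd E A b (q / (n + 1)) (q % (n + 1))) := K7.H40.PU.sm_dd hA _ _
  generalize hg E m n L = B at *
  obtain ⟨Q, hQ⟩ : ∃ Q, Q = m + D + 2 := ⟨_, rfl⟩
  rw [← hQ]
  have f0 : ∀ t : ℕ, ((t.factorial : ℕ) : ℝ) ≠ 0 := fun t => by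
    exact_mod_cast Nat.factorial_ne_zero t
  have a1 : Sm Q ((D + 1 - q : ℕ) : ℝ) := (sm_nat _).mono (by omega)
  have a2 : Sm (Q * Q) (q.factorial : ℝ) := (sm_fact q).mono (Nat.mul_le_mul (by omega) (by omega))
  have a3 : Sm (Q * Q) ((q + m).factorial : ℝ) :=
    (sm_fact (q + m)).mono (Nat.mul_le_mul (by omega) (by omega))
  have a4 : Sm Q ((n + 1 + q / (n + 1) - q % (n + 1) : ℕ) : ℝ) := (sm_nat _).mono (by omega)
  have a5 : Sm Q ((n + 1 + q / (n + 1) : ℕ) : ℝ) := (sm_nat _).mono (by omega)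
  have s30 : Sm (Q + Q * Q) (((D + 1 - q : ℕ) : ℝ) * (q.factorial : ℝ)) := a1.mul a2
  have s31 := s30.div a3 (f0 _)
  have e32 : rq D m n (dd E A b) q = dd E A b (q / (n + 1)) (q % (n + 1)) *
      (((D + 1 - q : ℕ) : ℝ) * (q.factorial : ℝ) / ((q + m).factorial : ℝ)) := by
    unfold rq
    rw [← ps_fact, Nat.cast_sub (by omega)]
    have h1 := (ps_pos m q).ne'
    have h2 := f0 q
    push_cast
    field_simp
  have s32 : Sm (B + (Q + Q * Q + Q * Q)) (rq D m n (dd E A b) q) := by
    rw [e32]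
    exact hdd.mul s31
  have s33 := s32.mul a4
  have s34 : Sm (1 + (B + (Q + Q * Q + Q * Q)) + 1) (1 - rq D m n (dd E A b) q) := by
    rw [sub_eq_add_neg]
    exact sm_one.add s32.neg
  have s35 := s33.div s34 (sub_ne_zero.2 (hρ q q1.1).symm)
  have s36 : Sm (Q + (B + (Q + Q * Q + Q * Q) + Q + (1 + (B + (Q + Q * Q + Q * Q)) + 1)) + 1)
      (xq D m n (dd E A b) q) := by
    have e : xq D m n (dd E A b) q = ((n + 1 + q / (n + 1) : ℕ) : ℝ) + rq D m n (dd E A b) q *
        ((n + 1 + q / (n + 1) - q % (n + 1) : ℕ) : ℝ) / (1 - rq D m n (dd E A b) q) := by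
      unfold xq xz
      rw [Nat.cast_sub (q4.trans (by omega))]
    rw [e]
    exact a5.add s35
  unfold sS
  exact ⟨s30.mono (by omega), s31.mono (by omega), s32.mono (by omega), s33.mono (by omega),
    s34.mono (by omega), s35.mono (by omega), s36.mono (by omega)⟩

theorem sS_le (L : ℕ) : sS (hg E m n L) (m + D + 2) * (D + 2) + 1 ≤ hB E D m n L := by
  unfold hB
  omega

theorem hS_le (L : ℕ) : sS (hg E m n L) (m + D + 2) ≤ hB E D m n L := by
  have := sS_le (E := E) (D := D) (m := m) (n := n) L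
  have h2 : sS (hg E m n L) (m + D + 2) * 1 ≤ sS (hg E m n L) (m + D + 2) * (D + 2) :=
    Nat.mul_le_mul_left _ (by omega)
  omega

theorem hP_le (L : ℕ) : (m + D + 2) * (D + 2) + 1 ≤ hB E D m n L := by
  unfold hB
  omega

theorem sm_nM {L : ℕ} (hA : ∀ i j, Sm L (ext A b i j)) (hD : (m + 1) * (n + 1) ≤ D + 1)
    (hc : n + m ≤ D) (hρ : ∀ q ≤ D, rq D m n (dd E A b) q ≠ 1) (I : Fin (mB D m n))
    (J : Fin (gB D)) : Sm (hB E D m n L) (nM E D A b I J) := by
  have h1 : (J : ℕ) / (D + 1) < D + 1 := Nat.div_lt_of_lt_mul (by exact J.2)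
  have h2 : (J : ℕ) % (D + 1) < D + 1 := Nat.mod_lt _ (by omega)
  have hx := xc_le (D := D) (m := m) (n := n) hc (I := I)
  have hy := yc_le hc hD (I := I)
  have gy := sm_natpow' (m := m) hy h2 rfl
  have gx : Sm (sS (hg E m n L) (m + D + 2) * (D + 2) + 1)
      (xv D m n (dd E A b) I ^ ((J : ℕ) / (D + 1))) := by
    unfold xv
    split_ifs with h
    · have hq : qR D m n I < m * (n + 1) := by
        unfold tR at h
        unfold qR
        omega
      obtain ⟨-, -, -, -, -, -, h3⟩ := sm_VX hA hD hc hρ hq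
      refine (sm_powx h3 _).mono (Nat.add_le_add_right (Nat.mul_le_mul_left _ (by omega)) _)
    · refine (sm_natpow' (m := m) (by omega) h1 rfl).mono ?_
      have h4 : (m + D + 2) * (D + 2) ≤ sS (hg E m n L) (m + D + 2) * (D + 2) :=
        Nat.mul_le_mul_right _ (by unfold sS; omega)
      omega
  have h0 := (gx.mul gy).mono (h' := hB E D m n L) (by unfold hB; omega)
  unfold nM
  split_ifs
  · rw [neg_one_mul]
    exact h0.neg
  · rw [one_mul]
    exact h0

theorem sm_vM (L : ℕ) (I : Fin (mB D m n)) : Sm (hB E D m n L) (vM D m n I) := by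
  have h1 : 1 ≤ hB E D m n L := by unfold hB; omega
  unfold vM
  split_ifs
  · exact sm_one.mono h1
  · exact sm_zero.mono h1

theorem sm_vls {L : ℕ} (hA : ∀ i j, Sm L (ext A b i j)) (hD : (m + 1) * (n + 1) ≤ D + 1)
    (hc : n + m ≤ D) (hρ : ∀ q ≤ D, rq D m n (dd E A b) q ≠ 1) :
    ∀ v ∈ vls E D A b, Sm (hB E D m n L) v := by
  have h1 : 1 ≤ hB E D m n L := by unfold hB; omega
  have h0 := hS_le (E := E) (D := D) (m := m) (n := n) L
  have hQ : (m + D + 2) * (m + D + 2) ≤ hB E D m n L := by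
    refine le_trans ?_ h0
    unfold sS
    omega
  intro v hv
  unfold vls at hv
  rw [List.mem_append, List.mem_append, List.mem_append] at hv
  rcases hv with hv | hv | hv | hv
  · refine (K7.H40.PU.sm_vls (T := E) (N := 0) hA v ?_).mono (le_trans (by unfold sS; omega) h0)
    unfold K7.H40.PU.vls
    exact List.mem_append_left _ hv
  · obtain ⟨I, hI, rfl⟩ := List.mem_map.mp hv
    simp only [prX, List.mem_append] at hI
    rcases hI with hI | hI | hI | hI | hI | hI | hI | hI | hI | hI | hI | hI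
    · obtain ⟨t, ht, h3⟩ := (prI_dst _ _).mp (List.mem_map.mpr ⟨I, hI, rfl⟩)
      rw [h3]
      change Sm _ ((t : ℕ) : ℝ)
      refine (sm_nat t).mono ?_
      have h4 : (m + D + 2) * 1 ≤ (m + D + 2) * (m + D + 2) := Nat.mul_le_mul_left _ (by omega)
      omega
    · obtain ⟨w, s, hw, hs, h3⟩ := (prP_dst (by omega) _).mp (List.mem_map.mpr ⟨I, hI, rfl⟩)
      rw [h3]
      change Sm _ ((w : ℝ) ^ s)
      exact (sm_natpow' (m := m) hw hs rfl).mono (by unfold hB; omega)
    · obtain ⟨t, ht, rfl⟩ := List.mem_map.mp hI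
      have ht := List.mem_range.mp ht
      have e : (if t = 0 then (⟨Op.add, [26, t], [2], [3]⟩ : Instr) else
        ⟨Op.mul, [26, t], [26, t - 1], [20, t]⟩).dst = [26, t] := by split_ifs <;> rfl
      rw [e]
      change Sm _ ((t.factorial : ℕ) : ℝ)
      exact (sm_fact t).mono ((Nat.mul_le_mul (by omega) (by omega)).trans hQ)
    · obtain ⟨t, ht, rfl⟩ := List.mem_map.mp hI
      exact (sm_VX hA hD hc hρ (List.mem_range.mp ht)).1.mono h0
    · obtain ⟨t, ht, rfl⟩ := List.mem_map.mp hI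
      exact (sm_VX hA hD hc hρ (List.mem_range.mp ht)).2.1.mono h0
    · obtain ⟨t, ht, rfl⟩ := List.mem_map.mp hI
      exact (sm_VX hA hD hc hρ (List.mem_range.mp ht)).2.2.1.mono h0
    · obtain ⟨t, ht, rfl⟩ := List.mem_map.mp hI
      exact (sm_VX hA hD hc hρ (List.mem_range.mp ht)).2.2.2.1.mono h0
    · obtain ⟨t, ht, rfl⟩ := List.mem_map.mp hI
      exact (sm_VX hA hD hc hρ (List.mem_range.mp ht)).2.2.2.2.1.mono h0
    · obtain ⟨t, ht, rfl⟩ := List.mem_map.mp hI
      exact (sm_VX hA hD hc hρ (List.mem_range.mp ht)).2.2.2.2.2.1.mono h0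
    · obtain ⟨t, ht, rfl⟩ := List.mem_map.mp hI
      exact (sm_VX hA hD hc hρ (List.mem_range.mp ht)).2.2.2.2.2.2.mono h0
    · obtain ⟨t, ht, rfl⟩ := List.mem_map.mp hI
      have ht := List.mem_range.mp ht
      have q1 : t / (D + 1) < m * (n + 1) := Nat.div_lt_of_lt_mul (by rwa [Nat.mul_comm])
      have q2 : t % (D + 1) < D + 1 := Nat.mod_lt _ (by omega)
      have e : (if t % (D + 1) = 0 then
          (⟨Op.add, [24, t / (D + 1), t % (D + 1)], [2], [3]⟩ : Instr)
          else ⟨Op.mul, [24, t / (D + 1), t % (D + 1)], [24, t / (D + 1), t % (D + 1) - 1],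
            [36, t / (D + 1)]⟩).dst = [24, t / (D + 1), t % (D + 1)] := by split_ifs <;> rfl
      rw [e]
      change Sm _ (xq D m n (dd E A b) (t / (D + 1)) ^ (t % (D + 1)))
      refine (sm_powx (sm_VX hA hD hc hρ q1).2.2.2.2.2.2 _).mono ?_
      refine le_trans ?_ (sS_le (E := E) (D := D) (m := m) (n := n) L)
      exact Nat.add_le_add_right (Nat.mul_le_mul_left _ (by omega)) _
    · obtain ⟨t, ht, rfl⟩ := List.mem_map.mp hI
      have ht := List.mem_range.mp ht
      have q1 : t / (D + 1) < m + (D + 1) + 1 := Nat.div_lt_of_lt_mul (by rwa [Nat.mul_comm])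
      have q2 : t % (D + 1) < D + 1 := Nat.mod_lt _ (by omega)
      change Sm _ (-((t / (D + 1) : ℕ) : ℝ) ^ (t % (D + 1)))
      exact ((sm_natpow' (m := m) (by omega) q2 rfl).neg).mono (by unfold hB; omega)
  · obtain ⟨I, hI, rfl⟩ := List.mem_map.mp hv
    have h2 := (pr2_dst (D := D) (m := m) (n := n) I.dst).mp (List.mem_map.mpr ⟨I, hI, rfl⟩)
    rcases h2 with ⟨I', J', hI', hJ', h3⟩ | ⟨I', hI', h3⟩
    · rw [h3]
      change Sm _ (if h : I' < mB D m n ∧ J' < gB D then nM E D A b ⟨I', h.1⟩ ⟨J', h.2⟩ else 0)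
      rw [dif_pos ⟨hI', hJ'⟩]
      exact sm_nM hA hD hc hρ _ _
    · rw [h3]
      change Sm _ (if h : I' < mB D m n then vM D m n ⟨I', h⟩ else 0)
      rw [dif_pos hI']
      exact sm_vM L _
  · obtain ⟨I, hI, rfl⟩ := List.mem_map.mp hv
    exact sm_zero.mono h1

/-- The length of the auxiliary part. -/
def lX (D m n : ℕ) : ℕ := (m + D + 2) + (m + D + 2) * (D + 1) + (m + D + 2) +
  7 * (m * (n + 1)) + m * (n + 1) * (D + 1) + (m + D + 2) * (D + 1)

theorem prX_length : (prX D m n).length = lX D m n := by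
  simp only [prX, prI, prP, prF, g0, g1, g2, g3, g4, g5, g6, prH, prN, lX, List.length_append,
    List.length_map, List.length_range]
  ring

theorem vls_length (E D : ℕ) (A : Matrix (Fin m) (Fin n) ℝ) (b : Fin m → ℝ) :
    (vls E D A b).length = 2 * (4 * (m * (n + 1)) + E + 6 + lX D m n) +
      (mB D m n * gB D + mB D m n) := by
  have h := prX_length (D := D) (m := m) (n := n)
  simp only [vls, pr1, pr2a, pr2b, pr3, ph1, ph2, ph3, ph5, ph7, List.length_append,
    List.length_map, List.length_range, List.length_cons, List.length_nil, h]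
  ring

end Pool.Agent.H37.BP
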