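import Pool.Graph.R_pool_sql_team_seeded_35f281b4.K7.H40.PU.Ctl
import Pool.Agent.H37.HO.Ctl
import Pool.Agent.H37.BP.Store

set_option autoImplicit false

/-! The program is computed in polynomial time; the reduction. -/

namespace Pool.Agent.H37.BP

open Pool.Agent.NPC Pool.Agent.NPC.ER Pool.Agent.NPC.H612 Pool.Agent.H558R2 Pool.Agent.H622R3.SM
open Pool.Agent.R533.GU Pool.Agent.K7.H40.NU
open Pool.Agent.K7.H40.PU (pr1 p_pr1 IsRed red_iff dd hg)
open Pool.Agent.H37.HO (prI prP p_prI p_prP)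

variable {α : Type} [TEnc α]

attribute [local fun_prop] TPM.pInstr

theorem u_rB {u v : α → ℕ} (hu : UPoly u) (hv : UPoly v) : UPoly (fun a => rB (u a) (v a)) := by
  unfold rB
  exact UPoly.mul (UPoly.const 8) (UPoly.mul (UPoly.add hu (UPoly.const 2))
    (UPoly.add hv (UPoly.const 1)))

theorem u_q {u v : α → ℕ} (hu : UPoly u) (hv : UPoly v) :
    UPoly (fun a => u a * (v a + 1)) := UPoly.mul hu (UPoly.add hv (UPoly.const 1))

theorem u_dB {u v : α → ℕ} (hu : UPoly u) (hv : UPoly v) (k : ℕ) :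
    UPoly (fun a => dB k (u a) (v a)) := by
  unfold dB
  exact UPoly.add (UPoly.add (UPoly.add (u_q hu hv) hv) hu)
    (UPoly.mul (UPoly.const 2) (u_pow (u_rB hu hv) _))

theorem u_gB {w : α → ℕ} (hw : UPoly w) : UPoly (fun a => gB (w a)) := by
  unfold gB
  exact UPoly.mul (UPoly.add hw (UPoly.const 1)) (UPoly.add hw (UPoly.const 1))

theorem u_mB {w u v : α → ℕ} (hw : UPoly w) (hu : UPoly u) (hv : UPoly v) :
    UPoly (fun a => mB (w a) (u a) (v a)) := by
  unfold mB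
  exact UPoly.add (UPoly.add (UPoly.add (UPoly.mul (UPoly.const 2) (u_gB hw))
    (UPoly.mul (UPoly.const 4) (u_q hu hv))) hu) (UPoly.const 1)

theorem u_tB {u v : α → ℕ} (hu : UPoly u) (hv : UPoly v) (k : ℕ) :
    UPoly (fun a => tB k (u a) (v a)) := by
  unfold tB
  exact UPoly.add (UPoly.add (u_pow (u_gB (u_dB hu hv k)) _)
    (UPoly.mul (UPoly.const 2) (u_dB hu hv k))) (UPoly.const 4)

theorem p_gB {w : α → ℕ} (hw : Poly w) : Poly (fun a => gB (w a)) := by
  unfold gB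
  fun_prop

theorem p_pat {u v c r : α → ℕ} (hu : Poly u) (hv : Poly v) (hc : Poly c) (hr : Poly r) :
    Poly (fun a => decide (pat (u a) (v a) (c a) (r a))) := by
  unfold pat
  fun_prop

theorem p_qR {w u v I : α → ℕ} (hw : Poly w) (hu : Poly u) (hv : Poly v) (hI : Poly I) :
    Poly (fun a => qR (w a) (u a) (v a) (I a)) := by
  have h := p_gB hw
  unfold qR
  fun_prop

theorem p_tR {w u v I : α → ℕ} (hw : Poly w) (hu : Poly u) (hv : Poly v) (hI : Poly I) :
    Poly (fun a => decide (tR (w a) (u a) (v a) (I a))) := by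
  have h := p_gB hw
  unfold tR
  fun_prop

theorem p_sB {w u v I : α → ℕ} (hw : Poly w) (hu : Poly u) (hv : Poly v) (hI : Poly I) :
    Poly (fun a => decide (sB (w a) (u a) (v a) (I a))) := by
  have h := p_gB hw
  unfold sB
  fun_prop

theorem p_xc {w u v I : α → ℕ} (hw : Poly w) (hu : Poly u) (hv : Poly v) (hI : Poly I) :
    Poly (fun a => xc (w a) (u a) (v a) (I a)) := by
  have h := p_gB hw
  have h1 : Poly (fun a => decide (pat (u a) (v a) (I a / 2 / (w a + 1)) (I a / 2 % (w a + 1)))) :=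
    p_pat hu hv (by fun_prop) (by fun_prop)
  unfold xc
  exact Poly.ite (by fun_prop) (Poly.ite h1 hw (by fun_prop)) (by fun_prop)

theorem p_yc {w u v I : α → ℕ} (hw : Poly w) (hu : Poly u) (hv : Poly v) (hI : Poly I) :
    Poly (fun a => yc (w a) (u a) (v a) (I a)) := by
  have h := p_gB hw
  have h1 : Poly (fun a => decide (pat (u a) (v a) (I a / 2 / (w a + 1)) (I a / 2 % (w a + 1)))) :=
    p_pat hu hv (by fun_prop) (by fun_prop)
  have h2 := p_qR hw hu hv hI
  unfold yc rw'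
  exact Poly.ite (by fun_prop) (Poly.ite h1 hu (by fun_prop)) (by fun_prop)

theorem p_xr {w u v I s : α → ℕ} (hw : Poly w) (hu : Poly u) (hv : Poly v) (hI : Poly I)
    (hs : Poly s) : Poly (fun a => xr (w a) (u a) (v a) (I a) (s a)) := by
  have h1 := p_xc hw hu hv hI
  have h2 := p_qR hw hu hv hI
  unfold xr
  exact Poly.ite (p_tR hw hu hv hI) (by fun_prop) (by fun_prop)

theorem p_yr {w u v I s : α → ℕ} (hw : Poly w) (hu : Poly u) (hv : Poly v) (hI : Poly I)
    (hs : Poly s) : Poly (fun a => yr (w a) (u a) (v a) (I a) (s a)) := by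
  have h1 := p_yc hw hu hv hI
  unfold yr
  exact Poly.ite (p_sB hw hu hv hI) (by fun_prop) (by fun_prop)

theorem p_en {w u v I J : α → ℕ} (hw : Poly w) (hu : Poly u) (hv : Poly v) (hI : Poly I)
    (hJ : Poly J) : Poly (fun a => en (w a) (u a) (v a) (I a) (J a)) := by
  have h1 : Poly (fun a => xr (w a) (u a) (v a) (I a) (J a / (w a + 1))) :=
    p_xr hw hu hv hI (by fun_prop)
  have h2 : Poly (fun a => yr (w a) (u a) (v a) (I a) (J a % (w a + 1))) :=
    p_yr hw hu hv hI (by fun_prop)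
  unfold en
  exact TPM.pInstr _ (by fun_prop) h1 h2

theorem p_prF {u : α → ℕ} (hu : UPoly u) : Poly (fun a => prF (u a)) := by
  have h1 := (UPoly.add hu (UPoly.const 1)).range
  unfold prF
  refine NPC.Poly.map h1 ?_
  exact Poly.ite (by fun_prop) (TPM.pInstr _ (by fun_prop) (by fun_prop) (by fun_prop))
    (TPM.pInstr _ (by fun_prop) (by fun_prop) (by fun_prop))

theorem p_g0 {w u : α → ℕ} (hw : UPoly w) (hu : UPoly u) : Poly (fun a => g0 (w a) (u a)) := by
  have h1 := hu.range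
  unfold g0
  refine NPC.Poly.map h1 ?_
  have h2 : Poly (fun p : α × ℕ => w p.1) := hw.toPoly.comp (Poly.fst Poly.id)
  have h3 : Poly (fun p : α × ℕ => w p.1 + 1 - p.2) :=
    Poly.sub (Poly.add h2 (NPC.Poly.const 1)) (Poly.snd Poly.id)
  exact TPM.pInstr _ (by fun_prop) (by fun_prop) (by fun_prop)

theorem p_g1 {w u : α → ℕ} (hw : UPoly w) (hu : UPoly u) : Poly (fun a => g1 (w a) (u a)) := by
  have h1 := hu.range
  unfold g1
  refine NPC.Poly.map h1 ?_
  have h2 : Poly (fun p : α × ℕ => w p.1) := hw.toPoly.comp (Poly.fst Poly.id)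
  have h3 : Poly (fun p : α × ℕ => p.2 + w p.1) := Poly.add (Poly.snd Poly.id) h2
  exact TPM.pInstr _ (by fun_prop) (by fun_prop) (by fun_prop)

theorem p_g2 {u : α → ℕ} (hu : UPoly u) : Poly (fun a => g2 (u a)) := by
  have h1 := hu.range
  unfold g2
  refine NPC.Poly.map h1 ?_
  exact TPM.pInstr _ (by fun_prop) (by fun_prop) (by fun_prop)

theorem p_g3 {w u : α → ℕ} (hw : UPoly w) (hu : UPoly u) : Poly (fun a => g3 (w a) (u a)) := by
  have h1 := hu.range
  unfold g3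
  refine NPC.Poly.map h1 ?_
  have h2 : Poly (fun p : α × ℕ => w p.1) := hw.toPoly.comp (Poly.fst Poly.id)
  have h4 : Poly (fun p : α × ℕ => w p.1 + 1) := Poly.add h2 (NPC.Poly.const 1)
  have h3 : Poly (fun p : α × ℕ => w p.1 + 1 + p.2 / (w p.1 + 1) - p.2 % (w p.1 + 1)) :=
    Poly.sub (Poly.add h4 (Poly.div (Poly.snd Poly.id) h4)) (Poly.mod (Poly.snd Poly.id) h4)
  exact TPM.pInstr _ (by fun_prop) (by fun_prop) (by fun_prop)

theorem p_g4 {u : α → ℕ} (hu : UPoly u) : Poly (fun a => g4 (u a)) := by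
  have h1 := hu.range
  unfold g4
  refine NPC.Poly.map h1 ?_
  exact TPM.pInstr _ (by fun_prop) (by fun_prop) (by fun_prop)

theorem p_g5 {u : α → ℕ} (hu : UPoly u) : Poly (fun a => g5 (u a)) := by
  have h1 := hu.range
  unfold g5
  refine NPC.Poly.map h1 ?_
  exact TPM.pInstr _ (by fun_prop) (by fun_prop) (by fun_prop)

theorem p_g6 {w u : α → ℕ} (hw : UPoly w) (hu : UPoly u) : Poly (fun a => g6 (w a) (u a)) := by
  have h1 := hu.range
  unfold g6
  refine NPC.Poly.map h1 ?_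
  have h2 : Poly (fun p : α × ℕ => w p.1) := hw.toPoly.comp (Poly.fst Poly.id)
  have h4 : Poly (fun p : α × ℕ => w p.1 + 1) := Poly.add h2 (NPC.Poly.const 1)
  have h3 : Poly (fun p : α × ℕ => w p.1 + 1 + p.2 / (w p.1 + 1)) :=
    Poly.add h4 (Poly.div (Poly.snd Poly.id) h4)
  exact TPM.pInstr _ (by fun_prop) (by fun_prop) (by fun_prop)

theorem p_prH {u w : α → ℕ} (hu : UPoly u) (hw : UPoly w) : Poly (fun a => prH (u a) (w a)) := by
  have h1 := (UPoly.mul hu hw).range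
  unfold prH
  refine NPC.Poly.map h1 ?_
  have h2 : Poly (fun p : α × ℕ => w p.1) := hw.toPoly.comp (Poly.fst Poly.id)
  have h3 : Poly (fun p : α × ℕ => p.2 / w p.1) := Poly.div (Poly.snd Poly.id) h2
  have h4 : Poly (fun p : α × ℕ => p.2 % w p.1) := Poly.mod (Poly.snd Poly.id) h2
  exact Poly.ite (by fun_prop) (TPM.pInstr _ (by fun_prop) (by fun_prop) (by fun_prop))
    (TPM.pInstr _ (by fun_prop) (by fun_prop) (by fun_prop))

theorem p_prN {u w : α → ℕ} (hu : UPoly u) (hw : UPoly w) : Poly (fun a => prN (u a) (w a)) := by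
  have h1 := (UPoly.mul (UPoly.add hu (UPoly.const 1)) hw).range
  unfold prN
  refine NPC.Poly.map h1 ?_
  have h2 : Poly (fun p : α × ℕ => w p.1) := hw.toPoly.comp (Poly.fst Poly.id)
  have h3 : Poly (fun p : α × ℕ => p.2 / w p.1) := Poly.div (Poly.snd Poly.id) h2
  have h4 : Poly (fun p : α × ℕ => p.2 % w p.1) := Poly.mod (Poly.snd Poly.id) h2
  exact TPM.pInstr _ (by fun_prop) (by fun_prop) (by fun_prop)

theorem p_prX {w u v : α → ℕ} (hw : UPoly w) (hu : UPoly u) (hv : UPoly v) :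
    Poly (fun a => prX (w a) (u a) (v a)) := by
  have hW : UPoly (fun a => w a + 1) := UPoly.add hw (UPoly.const 1)
  have hP : UPoly (fun a => u a + (w a + 1)) := UPoly.add hu hW
  have hq := u_q hu hv
  have a1 := p_prI hP
  have a2 := p_prP hP hW
  have a3 := p_prF hP
  have a4 := p_g0 hw hq
  have a5 := p_g1 hu hq
  have a6 := p_g2 hq
  have a7 := p_g3 hv hq
  have a8 := p_g4 hq
  have a9 := p_g5 hq
  have a10 := p_g6 hv hq
  have a11 := p_prH hq hW
  have a12 := p_prN hP hW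
  unfold prX
  exact Poly.append a1 (Poly.append a2 (Poly.append a3 (Poly.append a4 (Poly.append a5
    (Poly.append a6 (Poly.append a7 (Poly.append a8 (Poly.append a9 (Poly.append a10
    (Poly.append a11 a12))))))))))

theorem p_pr2a {w u v : α → ℕ} (hw : UPoly w) (hu : UPoly u) (hv : UPoly v) :
    Poly (fun a => pr2a (w a) (u a) (v a)) := by
  have h1 := (UPoly.mul (u_mB hw hu hv) (u_gB hw)).range
  unfold pr2a
  refine NPC.Poly.map h1 ?_
  have h2 : Poly (fun p : α × ℕ => gB (w p.1)) := (u_gB hw).toPoly.comp (Poly.fst Poly.id)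
  exact p_en (hw.toPoly.comp (Poly.fst Poly.id)) (hu.toPoly.comp (Poly.fst Poly.id))
    (hv.toPoly.comp (Poly.fst Poly.id))
    (Poly.div (Poly.snd Poly.id) h2) (Poly.mod (Poly.snd Poly.id) h2)

theorem p_pr2b {w u v : α → ℕ} (hw : UPoly w) (hu : UPoly u) (hv : UPoly v) :
    Poly (fun a => pr2b (w a) (u a) (v a)) := by
  have h1 := (u_mB hw hu hv).range
  unfold pr2b
  refine NPC.Poly.map h1 ?_
  have h3 : Poly (fun p : α × ℕ => mB (w p.1) (u p.1) (v p.1)) :=
    (u_mB hw hu hv).toPoly.comp (Poly.fst Poly.id)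
  have h4 : Poly (fun p : α × ℕ => if p.2 + 1 = mB (w p.1) (u p.1) (v p.1) then ([2] : Reg)
      else [3]) :=
    Poly.ite (Poly.decide_eq (by fun_prop) h3) (NPC.Poly.const _) (NPC.Poly.const _)
  exact TPM.pInstr _ (by fun_prop) h4 (by fun_prop)

theorem p_pr3 {e w u v : α → ℕ} (he : UPoly e) (hw : UPoly w) (hu : UPoly u) (hv : UPoly v) :
    Poly (fun a => pr3 (e a) (w a) (u a) (v a)) := by
  have h1 := p_pr1 hu hv he
  have h2 := p_prX hw hu hv
  unfold pr3
  refine NPC.Poly.map (Poly.append h1 h2) ?_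
  exact TPM.pInstr _ (p_dst.comp (Poly.snd Poly.id)) (by fun_prop) (by fun_prop)

theorem p_prg {e w u v : α → ℕ} (he : UPoly e) (hw : UPoly w) (hu : UPoly u) (hv : UPoly v) :
    Poly (fun a => prg (e a) (w a) (u a) (v a)) := by
  have h1 := p_pr1 hu hv he
  have h2 := p_prX hw hu hv
  have h4 := p_pr2a hw hu hv
  have h5 := p_pr2b hw hu hv
  have h6 := p_pr3 he hw hu hv
  unfold prg
  fun_prop

/-- The reduction program. -/
def red (k m n : ℕ) : List Instr := prg (tB k m n) (dB k m n) m n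

theorem p_red (k : ℕ) {u v : α → ℕ} (hu : UPoly u) (hv : UPoly v) :
    Poly (fun a => red k (u a) (v a)) := by
  unfold red
  exact p_prg (u_tB hu hv k) (u_dB hu hv k) hu hv

theorem red_computed (k : ℕ) :
    Computed (fun p : List Unit × List Unit => red k p.1.length p.2.length) :=
  t_COMP _ _ _ (p_red k (UPoly.length (Poly.fst Poly.id)) (UPoly.length (Poly.snd Poly.id)))

/-! ### Bounds -/

/-- Functions bounded by polynomials. -/
def PB (f : ℕ → ℕ → ℕ → ℕ) : Prop :=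
  ∃ q : Polynomial ℕ, ∀ m n L x, m ≤ x → n ≤ x → L ≤ x → f m n L ≤ q.eval x

theorem PB.add {f g : ℕ → ℕ → ℕ → ℕ} (hf : PB f) (hg : PB g) :
    PB fun m n L => f m n L + g m n L := by
  obtain ⟨p, hp⟩ := hf
  obtain ⟨q, hq⟩ := hg
  refine ⟨p + q, fun m n L x h1 h2 h3 => ?_⟩
  rw [Polynomial.eval_add]
  exact Nat.add_le_add (hp m n L x h1 h2 h3) (hq m n L x h1 h2 h3)

theorem PB.mul {f g : ℕ → ℕ → ℕ → ℕ} (hf : PB f) (hg : PB g) :
    PB fun m n L => f m n L * g m n L := by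
  obtain ⟨p, hp⟩ := hf
  obtain ⟨q, hq⟩ := hg
  refine ⟨p * q, fun m n L x h1 h2 h3 => ?_⟩
  rw [Polynomial.eval_mul]
  exact Nat.mul_le_mul (hp m n L x h1 h2 h3) (hq m n L x h1 h2 h3)

theorem PB.pow {f : ℕ → ℕ → ℕ → ℕ} (hf : PB f) (k : ℕ) : PB fun m n L => f m n L ^ k := by
  obtain ⟨p, hp⟩ := hf
  refine ⟨p ^ k, fun m n L x h1 h2 h3 => ?_⟩
  rw [Polynomial.eval_pow]
  exact Nat.pow_le_pow_left (hp m n L x h1 h2 h3) _

theorem PB.c (c : ℕ) : PB fun _ _ _ => c :=
  ⟨Polynomial.C c, fun m n L x _ _ _ => by rw [Polynomial.eval_C]⟩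

theorem PB.m : PB fun m _ _ => m :=
  ⟨Polynomial.X, fun m n L x h _ _ => by rw [Polynomial.eval_X]; exact h⟩

theorem PB.n : PB fun _ n _ => n :=
  ⟨Polynomial.X, fun m n L x _ h _ => by rw [Polynomial.eval_X]; exact h⟩

theorem PB.L : PB fun _ _ L => L :=
  ⟨Polynomial.X, fun m n L x _ _ h => by rw [Polynomial.eval_X]; exact h⟩

theorem pb_q : PB fun m n _ => m * (n + 1) := PB.m.mul (PB.n.add (PB.c 1))

theorem pb_dB (k : ℕ) : PB fun m n _ => dB k m n := by
  unfold dB rB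
  exact ((pb_q.add PB.n).add PB.m).add ((PB.c 2).mul (((PB.c 8).mul ((PB.m.add (PB.c 2)).mul
    (PB.n.add (PB.c 1)))).pow k))

theorem pb_gB (k : ℕ) : PB fun m n _ => gB (dB k m n) := by
  unfold gB
  exact ((pb_dB k).add (PB.c 1)).mul ((pb_dB k).add (PB.c 1))

theorem pb_mB (k : ℕ) : PB fun m n _ => mB (dB k m n) m n := by
  unfold mB
  exact (((PB.c 2).mul (pb_gB k)).add ((PB.c 4).mul pb_q)).add PB.m |>.add (PB.c 1)

theorem pb_tB (k : ℕ) : PB fun m n _ => tB k m n := by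
  unfold tB
  exact (((pb_gB k).pow k).add ((PB.c 2).mul (pb_dB k))).add (PB.c 4)

theorem pb_lX (k : ℕ) : PB fun m n _ => lX (dB k m n) m n := by
  have hP : PB fun m n _ => m + dB k m n + 2 := (PB.m.add (pb_dB k)).add (PB.c 2)
  have hW : PB fun m n _ => dB k m n + 1 := (pb_dB k).add (PB.c 1)
  unfold lX
  exact ((((hP.add (hP.mul hW)).add hP).add ((PB.c 7).mul pb_q)).add (pb_q.mul hW)).add
    (hP.mul hW)

/-- The length of the list of numbers. -/
def lB (k m n : ℕ) : ℕ := 2 * (4 * (m * (n + 1)) + tB k m n + 6 + lX (dB k m n) m n) +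
  (mB (dB k m n) m n * gB (dB k m n) + mB (dB k m n) m n)

theorem pb_lB (k : ℕ) : PB fun m n _ => lB k m n := by
  unfold lB
  exact ((PB.c 2).mul (((((PB.c 4).mul pb_q).add (pb_tB k)).add (PB.c 6)).add (pb_lX k))).add
    (((pb_mB k).mul (pb_gB k)).add (pb_mB k))

theorem pb_hB (k : ℕ) : PB fun m n L => hB (tB k m n) (dB k m n) m n L := by
  have hP : PB fun m n _ => m + dB k m n + 2 := (PB.m.add (pb_dB k)).add (PB.c 2)
  have hW : PB fun m n _ => dB k m n + 2 := (pb_dB k).add (PB.c 2)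
  have hG : PB fun m n L => hg (tB k m n) m n L := by
    unfold K7.H40.PU.hg
    exact ((((PB.c 10).mul ((pb_tB k).add (PB.c 1))).add (PB.c 10)).add
      (pb_q.mul (((PB.c 2).mul PB.L).add (PB.c 1)))).add ((PB.c 5).mul PB.L)
  unfold hB sS
  exact ((((((PB.c 2).mul hG).add ((PB.c 4).mul hP)).add ((PB.c 4).mul (hP.mul hP))).add
    (PB.c 4)).mul hW).add (hP.mul hW) |>.add (PB.c 1)

theorem rq_ne (k m n : ℕ) (A : Matrix (Fin m) (Fin n) ℝ) (b : Fin m → ℝ) :
    ∀ q ≤ dB k m n, rq (dB k m n) m n (dd (tB k m n) A b) q ≠ 1 := by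
  intro q hq h
  have h1 := rq_le (D := dB k m n) (tB k m n) A b hq
  have h2 := small_E (D := dB k m n) (tB k m n) (X := gB (dB k m n) ^ k) rfl
  have h5 : (0 : ℝ) ≤ 4 * (((dB k m n : ℕ) : ℝ) + 1) := by positivity
  have h6 := (mul_le_mul_of_nonneg_right h1 h5).trans h2
  have h4 : (1 : ℝ) / 2 ^ (gB (dB k m n) ^ k) ≤ 1 := by
    rw [div_le_one (by positivity)]
    exact one_le_pow₀ (by norm_num)
  have h7 := small_rho (h6.trans h4)
  rw [h, abs_one] at h7
  norm_num at h7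

theorem is_red (k : ℕ) : ∃ q : Polynomial ℕ, IsRed (fun _ _ _ _ => True) (BiPoly k)
    (red k) (fun m n => mB (dB k m n) m n) (fun m n => gB (dB k m n)) q := by
  obtain ⟨q1, h1⟩ := (pb_mB k).add (pb_gB k)
  obtain ⟨q2, h2⟩ := pb_lB k
  obtain ⟨q3, h3⟩ := pb_hB k
  refine ⟨q1 + q2 + q3, fun m n hm hn => ?_⟩
  have hD := dB_D k m n
  have hc := dB_c k m n
  have hρ := rq_ne k m n
  have e1 := h1 m n 0 (m + n) (Nat.le_add_right m n) (Nat.le_add_left n m) (Nat.zero_le _)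
  have e2 := h2 m n 0 (m + n) (Nat.le_add_right m n) (Nat.le_add_left n m) (Nat.zero_le _)
  dsimp only at e1 e2
  refine ⟨by change 1 ≤ mB (dB k m n) m n; unfold mB; omega, gB_pos _, ?_, fun A b _ => ?_⟩
  · simp only [Polynomial.eval_add]
    omega
  refine ⟨nM (tB k m n) (dB k m n) A b, vM (dB k m n) m n, vls (tB k m n) (dB k m n) A b,
    exec_prg _ A b hD hc (hρ A b), ?_, nM_class k A b, nM_iff k A b, fun L hL hS => ?_⟩
  · rw [vls_length]
    simp only [Polynomial.eval_add]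
    change lB k m n ≤ _
    omega
  · have e3 := h3 m n L L (by omega) (by omega) le_rfl
    dsimp only at e3
    have h8 : hB (tB k m n) (dB k m n) m n L ≤ (q1 + q2 + q3).eval L := by
      simp only [Polynomial.eval_add]
      omega
    exact ⟨fun v hv => (sm_vls hS hD hc (hρ A b) v hv).mono h8,
      fun i j => (sm_nM hS hD hc (hρ A b) i j).mono h8,
      fun i => (sm_vM L i).mono h8⟩

/-- The equivalences. -/
theorem main_iff (k : ℕ) (O : Set (List Bool)) :
    ((∃ α : Alg, PolyControl α ∧ DecidesOn O (BiPoly k) α) ↔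
      ∃ α : Alg, PolyControl α ∧ DecidesOn O (fun _ _ _ _ => True) α) ∧
    ((∃ α : Alg, PolyControl α ∧ OracleFree α ∧ DecidesOn O (BiPoly k) α) ↔
      ∃ α : Alg, PolyControl α ∧ OracleFree α ∧ DecidesOn O (fun _ _ _ _ => True) α) := by
  obtain ⟨q, hq⟩ := is_red k
  exact red_iff hq (fun _ _ _ _ _ => trivial)
    (u_mB (u_dB TUP.u_m TUP.u_n k) TUP.u_m TUP.u_n)
    (u_gB (u_dB TUP.u_m TUP.u_n k))
    (p_red k TUP.u_m TUP.u_n) O

end Pool.Agent.H37.BP
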