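import Mathlib

set_option autoImplicit false

/-!
# Sign conditions for a polynomial in two variables
-/

namespace Pool.Agent.H37.BP

/-- The system `A x ≥ b` consists of sign conditions at points of the plane for the unknown
coefficients of a polynomial `p` in two variables, of degree at most `D` in each variable:
`n = (D + 1) ^ 2`, the inequality `i` is `p (s i, t i) ≥ b i` or `- p (s i, t i) ≥ b i`, and `b` is a
unit vector. (The unknown `x j` is the coefficient of `s ^ a * t ^ c` for `j = a * (D + 1) + c`.)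

Moreover, for some `r` with `r ^ k ≤ D`: there are at most `2 n + r` inequalities, every point is
within `2 ^ (-n ^ k)` of a point of the grid of the integers from `0` to `2 (D + 1)`, its second
coordinate is an integer, and at most `r` of the first coordinates are not integers. -/
def BiPoly (k m n : ℕ) (A : Matrix (Fin m) (Fin n) ℝ) (b : Fin m → ℝ) : Prop :=
  ∃ (D r : ℕ) (s t : Fin m → ℝ) (i₀ : Fin m),
    n = (D + 1) ^ 2 ∧ r ^ k ≤ D ∧ m ≤ 2 * n + r ∧
    (∀ i, (∀ j : Fin n, A i j = s i ^ ((j : ℕ) / (D + 1)) * t i ^ ((j : ℕ) % (D + 1))) ∨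
      ∀ j : Fin n, A i j = -(s i ^ ((j : ℕ) / (D + 1)) * t i ^ ((j : ℕ) % (D + 1)))) ∧
    (∀ i, b i = if i = i₀ then 1 else 0) ∧
    (∀ i, ∃ a c : ℕ, a ≤ 2 * (D + 1) ∧ c ≤ 2 * (D + 1) ∧ |s i - a| ≤ 1 / 2 ^ (n ^ k) ∧
      t i = c) ∧
    {i | ∀ a : ℕ, s i ≠ a}.ncard ≤ r

end Pool.Agent.H37.BP
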