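import Pool.Graph.R_seed8.TH71.GR.Main
import Pool.Graph.R_seed8.TH71.GR.Classes
import Pool.Graph.R_seed8.H625R2.Gap
import Pool.Graph.R_seed8.R533.GU.Defs

set_option autoImplicit false

/-!
# Polynomials in two variables at points of a group of bounded rank
-/

namespace Pool.Agent.H37.BP

open Pool.Agent.H622R3.SM Pool.Agent.R533.GU Pool.Agent.H625R2
open MvPolynomial

/-- The system `A x ≥ b` consists of inequalities for the values at points of the plane of a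
polynomial `p` in two variables, of degree at most `D` in each variable, with unknown coefficients:
`n = (D + 1) ^ 2`, and the inequality `i` is `δ i * p (s i, t i) ≥ b i`, where `δ i ≠ 0`. (The unknown
`x j` is the coefficient of `s ^ a * t ^ c` for `j = a * (D + 1) + c`.)

All points, except at most `k`, lie in the square of a group with `k` generators: for some reals
`θ 1, ..., θ k`, their coordinates are integer combinations of `θ 1, ..., θ k`, with coefficients at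
most `2 ^ ((m + n) ^ k)`. The other points are arbitrary. -/
def FewScales (k m n : ℕ) (A : Matrix (Fin m) (Fin n) ℝ) : Prop :=
  ∃ (D : ℕ) (R : Finset (Fin m)) (θ : Fin k → ℝ) (s t δ : Fin m → ℝ),
    n = (D + 1) ^ 2 ∧ R.card ≤ k ∧
    (∀ i, δ i ≠ 0 ∧
      ∀ j : Fin n, A i j = δ i * (s i ^ ((j : ℕ) / (D + 1)) * t i ^ ((j : ℕ) % (D + 1)))) ∧
    ∀ i ∉ R, ∃ u v : Fin k → ℤ,
      (∀ r, |u r| ≤ 2 ^ ((m + n) ^ k) ∧ |v r| ≤ 2 ^ ((m + n) ^ k)) ∧
      s i = ∑ r, u r * θ r ∧ t i = ∑ r, v r * θ r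

/-- the linear form -/
noncomputable def lf {k : ℕ} (u : Fin k → ℤ) : MvPolynomial (Fin k) ℤ := ∑ r, C (u r) * X r

theorem mnrm_lf {k : ℕ} (u : Fin k → ℤ) {B : ℕ} (h : ∀ r, |u r| ≤ B) : mnrm (lf u) ≤ k * B := by
  unfold lf
  refine (mnrm_sum_le _ _).trans ?_
  have h1 : ∀ r ∈ (Finset.univ : Finset (Fin k)), mnrm (C (u r) * X r) ≤ B := by
    intro r _
    refine (mnrm_mul_le _ _).trans ?_
    rw [mnrm_C, mnrm_X, mul_one]
    have := h r
    rw [Int.abs_eq_natAbs] at this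
    exact_mod_cast this
  refine (Finset.sum_le_card_nsmul _ _ _ h1).trans ?_
  simp

theorem mnrm_one {k : ℕ} : mnrm (1 : MvPolynomial (Fin k) ℤ) = 1 := by
  rw [← MvPolynomial.C_1, mnrm_C]
  rfl

theorem mnrm_pow_le {k : ℕ} (p : MvPolynomial (Fin k) ℤ) (a : ℕ) : mnrm (p ^ a) ≤ mnrm p ^ a := by
  induction a with
  | zero => simp [mnrm_one]
  | succ a ih =>
    rw [pow_succ, pow_succ]
    exact (mnrm_mul_le _ _).trans (Nat.mul_le_mul_right _ ih)

theorem coeff_le_mnrm {k : ℕ} (p : MvPolynomial (Fin k) ℤ) (e : Fin k →₀ ℕ) :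
    |p.coeff e| ≤ mnrm p := by
  by_cases h : e ∈ p.support
  · have h1 : (p.coeff e).natAbs ≤ mnrm p :=
      Finset.single_le_sum (f := fun m => (p.coeff m).natAbs) (fun _ _ => Nat.zero_le _) h
    rw [Int.abs_eq_natAbs]
    exact_mod_cast h1
  · rw [MvPolynomial.notMem_support_iff] at h
    rw [h]
    simp

theorem degreeOf_lf {k : ℕ} (u : Fin k → ℤ) (r : Fin k) : (lf u).degreeOf r ≤ 1 := by
  unfold lf
  refine (degreeOf_sum_le _ _ _).trans ?_
  refine Finset.sup_le fun q _ => ?_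
  refine (degreeOf_mul_le _ _ _).trans ?_
  rw [degreeOf_C]
  by_cases h : r = q
  · subst h
    rw [degreeOf_X_self]
  · rw [degreeOf_X_of_ne h]
    omega

theorem degreeOf_prod {k : ℕ} (u v : Fin k → ℤ) (a b : ℕ) (r : Fin k) :
    (lf u ^ a * lf v ^ b).degreeOf r ≤ a + b := by
  refine (degreeOf_mul_le _ _ _).trans ?_
  refine Nat.add_le_add ?_ ?_
  · refine (degreeOf_pow_le _ _ _).trans ?_
    exact (Nat.mul_le_mul_left _ (degreeOf_lf u r)).trans (by omega)
  · refine (degreeOf_pow_le _ _ _).trans ?_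
    exact (Nat.mul_le_mul_left _ (degreeOf_lf v r)).trans (by omega)

theorem coeff_prod {k : ℕ} (u v : Fin k → ℤ) {B : ℕ} (hu : ∀ r, |u r| ≤ B) (hv : ∀ r, |v r| ≤ B)
    (hB : 1 ≤ k * B) {a b D : ℕ} (ha : a ≤ D) (hb : b ≤ D) (e : Fin k →₀ ℕ) :
    |(lf u ^ a * lf v ^ b).coeff e| ≤ (k * B) ^ (2 * D) := by
  refine (coeff_le_mnrm _ _).trans ?_
  have h1 : mnrm (lf u ^ a * lf v ^ b) ≤ (k * B) ^ (2 * D) := by
    refine (mnrm_mul_le _ _).trans ?_
    rw [two_mul, pow_add]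
    refine Nat.mul_le_mul ?_ ?_
    · refine (mnrm_pow_le _ _).trans ?_
      exact (Nat.pow_le_pow_left (mnrm_lf u hu) a).trans (Nat.pow_le_pow_right hB ha)
    · refine (mnrm_pow_le _ _).trans ?_
      exact (Nat.pow_le_pow_left (mnrm_lf v hv) b).trans (Nat.pow_le_pow_right hB hb)
  exact_mod_cast h1

theorem aeval_lf {k : ℕ} (u : Fin k → ℤ) (θ : Fin k → ℝ) : aeval θ (lf u) = ∑ r, u r * θ r := by
  unfold lf
  rw [map_sum]
  refine Finset.sum_congr rfl fun r _ => ?_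
  rw [map_mul, aeval_X]
  congr 1
  simp

theorem size_le {S k D : ℕ} (hS : 2 ≤ S) (hD : D ≤ S) :
    ((k + 4) * 2 ^ (S ^ k)) ^ (2 * D) ≤ 2 ^ (S ^ (k + 4)) := by
  have h1 : k + 4 ≤ 2 ^ (k + 2) := by
    have := Nat.lt_two_pow_self (n := k)
    rw [pow_add]
    omega
  have h2 : (k + 4) * 2 ^ (S ^ k) ≤ 2 ^ (k + 2 + S ^ k) := by
    rw [pow_add 2 (k + 2)]
    exact Nat.mul_le_mul_right _ h1
  refine (Nat.pow_le_pow_left h2 _).trans ?_
  rw [← pow_mul]
  refine Nat.pow_le_pow_right (by norm_num) ?_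
  have h3 : k + 1 ≤ S ^ k := by
    have h4 : k < 2 ^ k := Nat.lt_two_pow_self
    exact (Nat.succ_le_of_lt h4).trans (Nat.pow_le_pow_left hS k)
  have h5 : 1 ≤ S ^ k := Nat.one_le_iff_ne_zero.2 (pow_ne_zero _ (by omega))
  have h6 : k + 2 + S ^ k ≤ 3 * S ^ k := by omega
  calc (k + 2 + S ^ k) * (2 * D) ≤ (3 * S ^ k) * (2 * S) :=
        Nat.mul_le_mul h6 (by omega)
    _ = 6 * S ^ (k + 1) := by ring
    _ ≤ S ^ 3 * S ^ (k + 1) := by
        refine Nat.mul_le_mul_right _ ?_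
        have : 2 ^ 3 ≤ S ^ 3 := Nat.pow_le_pow_left hS 3
        omega
    _ = S ^ (k + 4) := by ring

theorem polyNum_of_few {k m n : ℕ} (hm : 1 ≤ m) (hn : 1 ≤ n) (A : Matrix (Fin m) (Fin n) ℝ)
    (h : FewScales k m n A) : Pool.Agent.TH71.GR.PolyNum (k + 4) m n A := by
  classical
  obtain ⟨D, R, θ, s, t, δ, hD, hR, hA, hst⟩ := h
  have hd : 1 ≤ (m + n) ^ (k + 4) := Nat.one_le_pow _ _ (by omega)
  have hS : (1 : ℤ) ≤ 2 ^ (m + n) ^ (k + 4) := one_le_pow₀ (by norm_num)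
  have hDn : D + 1 ≤ n := by
    rw [hD, sq]
    exact Nat.le_mul_of_pos_left _ (by omega)
  obtain ⟨o, ho⟩ : ∃ o : Fin ((m + n) ^ (k + 4)), o = ⟨0, hd⟩ := ⟨_, rfl⟩
  have hst' : ∀ i, ∃ u v : Fin k → ℤ,
      (∀ r, |u r| ≤ 2 ^ ((m + n) ^ k) ∧ |v r| ≤ 2 ^ ((m + n) ^ k)) ∧
      (i ∉ R → s i = ∑ r, u r * θ r ∧ t i = ∑ r, v r * θ r) := by
    intro i
    by_cases h : i ∈ R
    · exact ⟨0, 0, fun r => by simp, fun h' => absurd h h'⟩
    · obtain ⟨u, v, h1, h2⟩ := hst i h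
      exact ⟨u, v, h1, fun _ => h2⟩
  choose u v h1 h2 using hst'
  have hap : ∀ u : Fin k → ℤ, (∀ r, |u r| ≤ 2 ^ ((m + n) ^ k)) → ∀ r,
      |Fin.append u (fun _ : Fin 4 => (0 : ℤ)) r| ≤ ((2 ^ ((m + n) ^ k) : ℕ) : ℤ) := by
    intro u hu r
    refine Fin.addCases (fun r => ?_) (fun r => ?_) r
    · rw [Fin.append_left]
      exact_mod_cast hu r
    · rw [Fin.append_right]
      simp
  have hB : 1 ≤ (k + 4) * 2 ^ ((m + n) ^ k) := Nat.mul_pos (by omega) (by positivity)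
  have hsum : ∀ u : Fin k → ℤ, aeval (Fin.append θ (fun _ : Fin 4 => (0 : ℝ)))
      (lf (Fin.append u (fun _ : Fin 4 => (0 : ℤ)))) = ∑ r, u r * θ r := by
    intro u
    rw [aeval_lf, Fin.sum_univ_add]
    simp
  refine ⟨R, ∅, fun i => (δ i)⁻¹, fun _ => 1, Fin.append θ (fun _ : Fin 4 => (0 : ℝ)),
    fun l => if l = o then 1 else 0,
    fun a b l => if a = o ∧ b = o ∧ l = o then 1 else 0,
    fun i j l => if l = o then
      lf (Fin.append (u i) (fun _ : Fin 4 => (0 : ℤ))) ^ ((j : ℕ) / (D + 1)) *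
      lf (Fin.append (v i) (fun _ : Fin 4 => (0 : ℤ))) ^ ((j : ℕ) % (D + 1)) else 0,
    hR.trans (by omega), by simp, fun i => inv_ne_zero (hA i).1, fun _ => one_ne_zero,
    ?_, ?_, ?_, ?_⟩
  · intro a b l
    dsimp only
    split_ifs
    · simpa using hS
    · simp
  · intro a b
    by_cases h1 : a = o <;> by_cases h2 : b = o <;> simp [h1, h2]
  · intro i j l
    have ha : (j : ℕ) / (D + 1) ≤ D := by
      have h3 := j.2
      have h4 : (j : ℕ) < (D + 1) * (D + 1) := by rw [← sq, ← hD]; exact h3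
      have := Nat.div_lt_of_lt_mul h4
      omega
    have hb : (j : ℕ) % (D + 1) ≤ D := by
      exact Nat.lt_succ_iff.1 (Nat.mod_lt (j : ℕ) (Nat.succ_pos D))
    dsimp only
    split_ifs
    · constructor
      · intro r
        refine (degreeOf_prod _ _ _ _ r).trans ?_
        have h5 : (m + n) ^ 2 ≤ (m + n) ^ (k + 4) := Nat.pow_le_pow_right (by omega) (by omega)
        have h6 : 2 * (m + n) ≤ (m + n) ^ 2 := by
          rw [sq]
          exact Nat.mul_le_mul_right _ (by omega)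
        omega
      · intro e
        refine (coeff_prod _ _ (hap _ fun r => (h1 i r).1) (hap _ fun r => (h1 i r).2) hB ha hb
          e).trans ?_
        have := size_le (S := m + n) (k := k) (D := D) (by omega) (by omega)
        exact_mod_cast this
    · refine ⟨fun r => by simp, fun e => by simp⟩
  · intro i hi j _
    have e1 : ∀ x : ℝ, (δ i)⁻¹ * (δ i * x) * 1 = x := fun x => by
      rw [mul_one, inv_mul_cancel_left₀ (hA i).1]
    rw [(hA i).2 j, e1, (h2 i hi).1, (h2 i hi).2, ← hsum, ← hsum]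
    simp

/-- The class is decided in strongly polynomial time. -/
theorem few_main (k : ℕ) : ∃ α : Alg, PolyControl α ∧ OracleFree α ∧
    DecidesOn ∅ (fun m n A _ => FewScales k m n A) α := by
  obtain ⟨h1, h2, p, hp⟩ := Pool.Agent.TH71.GR.main ((k + 4) * (k + 4) + 8 * (k + 4) + 10)
  refine ⟨_, h1, h2, p, fun m n hm hn A b hA => hp m n hm hn A b ?_⟩
  exact Pool.Agent.TH71.GR.growth_of_polyNum hm hn A (polyNum_of_few hm hn A hA)

end Pool.Agent.H37.BP
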