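import Pool.Agent.H37.BP.Rows
import Pool.Agent.H37.HO.Store

set_option autoImplicit false

/-! The auxiliary part of the program. -/

namespace Pool.Agent.H37.BP

open Pool.Agent.NPC Pool.Agent.H558R2 Pool.Agent.H622R3.SM
open Pool.Agent.R533.GU Pool.Agent.K7.H40.NU
open Pool.Agent.K7.H40.PU (pr1 V1 V1_D0 pr1_good pr1_dst th dd abs_dd_le th_pos exV sm_th)
open Pool.Agent.H37.HO (prI prP prI_dst prP_dst sm_nat sm_natpow)

/-- The targets of a program. -/
def ds (P : List Instr) : Set Reg := {r | ∃ I ∈ P, I.dst = r}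

theorem app {W : Reg → ℝ} {P Q : List Instr} {S : Set Reg} (h1 : Good W P S)
    (h2 : Good W Q (S ∪ ds P)) : Good W (P ++ Q) S := good_append h1 h2

/-- Factorials. -/
def prF (P : ℕ) : List Instr := (List.range (P + 1)).map fun t =>
  if t = 0 then ⟨Op.add, [26, t], [2], [3]⟩ else ⟨Op.mul, [26, t], [26, t - 1], [20, t]⟩

/-- A row of parallel instructions. -/
def g0 (D N : ℕ) : List Instr := (List.range N).map fun q => ⟨Op.mul, [30, q], [20, D + 1 - q], [26, q]⟩

/-- A row of parallel instructions. -/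
def g1 (m N : ℕ) : List Instr := (List.range N).map fun q => ⟨Op.div, [31, q], [30, q], [26, q + m]⟩

/-- A row of parallel instructions. -/
def g2 (N : ℕ) : List Instr := (List.range N).map fun q => ⟨Op.mul, [32, q], [11, q], [31, q]⟩

/-- A row of parallel instructions. -/
def g3 (n N : ℕ) : List Instr := (List.range N).map fun q =>
  ⟨Op.mul, [33, q], [32, q], [20, n + 1 + q / (n + 1) - q % (n + 1)]⟩

/-- A row of parallel instructions. -/
def g4 (N : ℕ) : List Instr := (List.range N).map fun q => ⟨Op.sub, [34, q], [2], [32, q]⟩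

/-- A row of parallel instructions. -/
def g5 (N : ℕ) : List Instr := (List.range N).map fun q => ⟨Op.div, [35, q], [33, q], [34, q]⟩

/-- A row of parallel instructions. -/
def g6 (n N : ℕ) : List Instr := (List.range N).map fun q =>
  ⟨Op.add, [36, q], [20, n + 1 + q / (n + 1)], [35, q]⟩

/-- Powers. -/
def prH (N K : ℕ) : List Instr := (List.range (N * K)).map fun t =>
  if t % K = 0 then ⟨Op.add, [24, t / K, t % K], [2], [3]⟩
  else ⟨Op.mul, [24, t / K, t % K], [24, t / K, t % K - 1], [36, t / K]⟩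

/-- Negative powers. -/
def prN (P K : ℕ) : List Instr := (List.range ((P + 1) * K)).map fun t =>
  ⟨Op.sub, [22, t / K, t % K], [3], [21, t / K, t % K]⟩

/-- The auxiliary part of the program. -/
def prX (D m n : ℕ) : List Instr :=
  prI (m + (D + 1)) ++ (prP (m + (D + 1)) (D + 1) ++ (prF (m + (D + 1)) ++
    (g0 D (m * (n + 1)) ++ (g1 m (m * (n + 1)) ++ (g2 (m * (n + 1)) ++ (g3 n (m * (n + 1)) ++
    (g4 (m * (n + 1)) ++ (g5 (m * (n + 1)) ++ (g6 n (m * (n + 1)) ++
    (prH (m * (n + 1)) (D + 1) ++ prN (m + (D + 1)) (D + 1)))))))))))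

/-- The values of the auxiliary registers. -/
noncomputable def VX (D m n : ℕ) (d : ℕ → ℕ → ℝ) : Reg → ℝ
  | [2] => 1
  | [11, t] => d (t / (n + 1)) (t % (n + 1))
  | [20, t] => t
  | [21, v, s] => (v : ℝ) ^ s
  | [22, v, s] => -(v : ℝ) ^ s
  | [24, q, s] => xq D m n d q ^ s
  | [26, t] => (t.factorial : ℝ)
  | [30, q] => ((D + 1 - q : ℕ) : ℝ) * (q.factorial : ℝ)
  | [31, q] => ((D + 1 - q : ℕ) : ℝ) * (q.factorial : ℝ) / ((q + m).factorial : ℝ)
  | [32, q] => rq D m n d q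
  | [33, q] => rq D m n d q * ((n + 1 + q / (n + 1) - q % (n + 1) : ℕ) : ℝ)
  | [34, q] => 1 - rq D m n d q
  | [35, q] => rq D m n d q * ((n + 1 + q / (n + 1) - q % (n + 1) : ℕ) : ℝ) / (1 - rq D m n d q)
  | [36, q] => xq D m n d q
  | _ => 0

/-- The registers used. -/
def S0 (m n : ℕ) : Set Reg := {r | r = [2] ∨ r = [3] ∨ ∃ t, t < m * (n + 1) ∧ r = [11, t]}

theorem prI_good' (W : Reg → ℝ) (h0 : W [3] = 0) (h1 : W [2] = 1) (h20 : ∀ t : ℕ, W [20, t] = t)
    (P : ℕ) {S : Set Reg} (g2 : [2] ∈ S) (g3 : [3] ∈ S) : Good W (prI P) S := by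
  refine good_range _ _ fun s hs => ?_
  by_cases h : s = 0
  · rw [if_pos h]
    refine ⟨Or.inl g3, Or.inl g3, ?_, nofun⟩
    change W [20, s] = W [3] + W [3]
    rw [h20, h, h0]
    norm_num
  · rw [if_neg h]
    refine ⟨Or.inr ⟨s - 1, by omega, ?_⟩, Or.inl g2, ?_, nofun⟩
    · split_ifs <;> rfl
    · change W [20, s] = W [20, s - 1] + W [2]
      rw [h20, h20, h1, Nat.cast_sub (by omega)]
      norm_num

/-- Powers are computed correctly. -/
theorem pw_good (W : Reg → ℝ) (h0 : W [3] = 0) (h1 : W [2] = 1) (a c : ℕ) (y : ℕ → ℝ)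
    (hc : ∀ q : ℕ, W [c, q] = y q) (ha : ∀ q s : ℕ, W [a, q, s] = y q ^ s)
    (N : ℕ) {K : ℕ} (hK : 1 ≤ K) {S : Set Reg} (g2 : [2] ∈ S) (g3 : [3] ∈ S)
    (gc : ∀ q < N, ([c, q] : Reg) ∈ S) :
    Good W ((List.range (N * K)).map fun t =>
      if t % K = 0 then ⟨Op.add, [a, t / K, t % K], [2], [3]⟩
      else ⟨Op.mul, [a, t / K, t % K], [a, t / K, t % K - 1], [c, t / K]⟩) S := by
  refine good_range _ _ fun s hs => ?_
  by_cases h : s % K = 0
  · rw [if_pos h]
    refine ⟨Or.inl g2, Or.inl g3, ?_, nofun⟩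
    change W [a, s / K, s % K] = W [2] + W [3]
    rw [ha, h, h0, h1]
    norm_num
  · rw [if_neg h]
    have hq : s / K < N := Nat.div_lt_of_lt_mul (by rwa [Nat.mul_comm])
    obtain ⟨q, u, hu, e⟩ : ∃ q u, u + 1 < K ∧ s = K * q + (u + 1) :=
      ⟨s / K, s % K - 1, by have := Nat.mod_lt s hK; omega, by
        have := Nat.div_add_mod s K
        omega⟩
    have e1 : s / K = q := by
      rw [e, Nat.mul_add_div (by omega), Nat.div_eq_of_lt hu, add_zero]
    have e2 : s % K = u + 1 := by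
      rw [e, Nat.mul_add_mod, Nat.mod_eq_of_lt hu]
    have e3 : (s - 1) / K = q := by
      rw [e, show K * q + (u + 1) - 1 = K * q + u by omega, Nat.mul_add_div (by omega),
        Nat.div_eq_of_lt (by omega), add_zero]
    have e4 : (s - 1) % K = u := by
      rw [e, show K * q + (u + 1) - 1 = K * q + u by omega, Nat.mul_add_mod,
        Nat.mod_eq_of_lt (by omega)]
    refine ⟨Or.inr ⟨s - 1, by omega, ?_⟩, Or.inl (gc _ hq), ?_, nofun⟩
    · simp only [e1, e2, e3, e4]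
      split_ifs <;> rfl
    · change W [a, s / K, s % K] = W [a, s / K, s % K - 1] * W [c, s / K]
      rw [ha, ha, hc, e2, Nat.add_sub_cancel, pow_succ]

theorem mI {P t : ℕ} (ht : t ≤ P) : ([20, t] : Reg) ∈ ds (prI P) :=
  List.mem_map.mp ((prI_dst P [20, t]).mpr ⟨t, ht, rfl⟩)

theorem mP {P v s K : ℕ} (hv : v ≤ P) (hs : s < K) : ([21, v, s] : Reg) ∈ ds (prP P K) :=
  List.mem_map.mp ((prP_dst (by omega) [21, v, s]).mpr ⟨v, s, hv, hs, rfl⟩)

theorem mF {P t : ℕ} (ht : t ≤ P) : ([26, t] : Reg) ∈ ds (prF P) :=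
  ⟨_, List.mem_map.mpr ⟨t, List.mem_range.mpr (by omega), rfl⟩, by split_ifs <;> rfl⟩

theorem m0 {D N q : ℕ} (h : q < N) : ([30, q] : Reg) ∈ ds (g0 D N) :=
  ⟨_, List.mem_map.mpr ⟨q, List.mem_range.mpr h, rfl⟩, rfl⟩

theorem m1 {m N q : ℕ} (h : q < N) : ([31, q] : Reg) ∈ ds (g1 m N) :=
  ⟨_, List.mem_map.mpr ⟨q, List.mem_range.mpr h, rfl⟩, rfl⟩

theorem m2 {N q : ℕ} (h : q < N) : ([32, q] : Reg) ∈ ds (g2 N) :=
  ⟨_, List.mem_map.mpr ⟨q, List.mem_range.mpr h, rfl⟩, rfl⟩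

theorem m3 {n N q : ℕ} (h : q < N) : ([33, q] : Reg) ∈ ds (g3 n N) :=
  ⟨_, List.mem_map.mpr ⟨q, List.mem_range.mpr h, rfl⟩, rfl⟩

theorem m4 {N q : ℕ} (h : q < N) : ([34, q] : Reg) ∈ ds (g4 N) :=
  ⟨_, List.mem_map.mpr ⟨q, List.mem_range.mpr h, rfl⟩, rfl⟩

theorem m5 {N q : ℕ} (h : q < N) : ([35, q] : Reg) ∈ ds (g5 N) :=
  ⟨_, List.mem_map.mpr ⟨q, List.mem_range.mpr h, rfl⟩, rfl⟩

theorem m6 {n N q : ℕ} (h : q < N) : ([36, q] : Reg) ∈ ds (g6 n N) :=
  ⟨_, List.mem_map.mpr ⟨q, List.mem_range.mpr h, rfl⟩, rfl⟩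

variable {D m n : ℕ}

/-- **The auxiliary part is correct.** -/
theorem prX_good (hD : (m + 1) * (n + 1) ≤ D + 1) (hc : n + m ≤ D) {d : ℕ → ℕ → ℝ}
    (hρ : ∀ q ≤ D, rq D m n d q ≠ 1) :
    Good (VX D m n d) (prX D m n) (S0 m n) := by
  have hq1 : ∀ {q : ℕ}, q < m * (n + 1) → q ≤ D ∧ q + m ≤ m + (D + 1) := by
    intro q hq
    have : (m + 1) * (n + 1) = m * (n + 1) + (n + 1) := by ring
    omega
  have k2 : ([2] : Reg) ∈ S0 m n := Or.inl rfl
  have k3 : ([3] : Reg) ∈ S0 m n := Or.inr (Or.inl rfl)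
  have k11 : ∀ {t : ℕ}, t < m * (n + 1) → ([11, t] : Reg) ∈ S0 m n := fun {t} ht =>
    Or.inr (Or.inr ⟨t, ht, rfl⟩)
  have f0 : ∀ t : ℕ, ((t.factorial : ℕ) : ℝ) ≠ 0 := fun t => by
    exact_mod_cast Nat.factorial_ne_zero t
  unfold prX
  refine app (prI_good' _ rfl rfl (fun _ => rfl) _ k2 k3) ?_
  refine app (pw_good _ rfl rfl 21 20 (fun q => (q : ℝ)) (fun _ => rfl) (fun _ _ => rfl) _
    (by omega) (Or.inl k2) (Or.inl k3) fun q hq => Or.inr (mI (by omega))) ?_
  refine app (good_range _ _ fun s hs => ?_) ?_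
  · by_cases h : s = 0
    · rw [if_pos h]
      refine ⟨by simp only [Set.mem_union, k2, true_or], by simp only [Set.mem_union, k3, true_or],
        ?_, nofun⟩
      change ((s.factorial : ℕ) : ℝ) = 1 + 0
      rw [h]
      norm_num
    · rw [if_neg h]
      refine ⟨Or.inr ⟨s - 1, by omega, ?_⟩, ?_, ?_, nofun⟩
      · split_ifs <;> rfl
      · have := mI (P := m + (D + 1)) (t := s) (by omega)
        simp only [Set.mem_union, this, true_or, or_true]
      · change ((s.factorial : ℕ) : ℝ) = (((s - 1).factorial : ℕ) : ℝ) * (s : ℝ)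
        obtain ⟨t, rfl⟩ : ∃ t, s = t + 1 := ⟨s - 1, by omega⟩
        rw [Nat.add_sub_cancel, Nat.factorial_succ]
        push_cast
        ring
  refine app (good_par fun I hI => ?_) ?_
  · obtain ⟨q, hq, rfl⟩ := List.mem_map.mp hI
    have hq := List.mem_range.mp hq
    obtain ⟨q1, q2⟩ := hq1 hq
    have j1 := mI (P := m + (D + 1)) (t := D + 1 - q) (by omega)
    have j2 := mF (P := m + (D + 1)) (t := q) (by omega)
    exact ⟨by simp only [Set.mem_union, j1, true_or, or_true],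
      by simp only [Set.mem_union, j2, or_true], rfl, nofun⟩
  refine app (good_par fun I hI => ?_) ?_
  · obtain ⟨q, hq, rfl⟩ := List.mem_map.mp hI
    have hq := List.mem_range.mp hq
    obtain ⟨q1, q2⟩ := hq1 hq
    have j1 := m0 (D := D) hq
    have j2 := mF (P := m + (D + 1)) (t := q + m) q2
    exact ⟨by simp only [Set.mem_union, j1, or_true],
      by simp only [Set.mem_union, j2, true_or, or_true], rfl, fun _ => f0 _⟩
  refine app (good_par fun I hI => ?_) ?_
  · obtain ⟨q, hq, rfl⟩ := List.mem_map.mp hI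
    have hq := List.mem_range.mp hq
    obtain ⟨q1, q2⟩ := hq1 hq
    have j1 := k11 hq
    have j2 := m1 (m := m) hq
    refine ⟨by simp only [Set.mem_union, j1, true_or],
      by simp only [Set.mem_union, j2, or_true], ?_, nofun⟩
    change rq D m n d q = d (q / (n + 1)) (q % (n + 1)) *
      (((D + 1 - q : ℕ) : ℝ) * (q.factorial : ℝ) / ((q + m).factorial : ℝ))
    unfold rq
    rw [← ps_fact, Nat.cast_sub (by omega)]
    have h1 := (ps_pos m q).ne'
    have h2 := f0 q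
    push_cast
    field_simp
  refine app (good_par fun I hI => ?_) ?_
  · obtain ⟨q, hq, rfl⟩ := List.mem_map.mp hI
    have hq := List.mem_range.mp hq
    obtain ⟨q1, q2⟩ := hq1 hq
    obtain ⟨q3, q4⟩ := q_lt hq
    have q5 := Nat.zero_le (q / (n + 1))
    have j1 := m2 hq
    have j2 := mI (P := m + (D + 1)) (t := n + 1 + q / (n + 1) - q % (n + 1)) (by omega)
    exact ⟨by simp only [Set.mem_union, j1, or_true],
      by simp only [Set.mem_union, j2, true_or, or_true], rfl, nofun⟩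
  refine app (good_par fun I hI => ?_) ?_
  · obtain ⟨q, hq, rfl⟩ := List.mem_map.mp hI
    have hq := List.mem_range.mp hq
    have j1 := m2 hq
    exact ⟨by simp only [Set.mem_union, k2, true_or],
      by simp only [Set.mem_union, j1, true_or, or_true], rfl, nofun⟩
  refine app (good_par fun I hI => ?_) ?_
  · obtain ⟨q, hq, rfl⟩ := List.mem_map.mp hI
    have hq := List.mem_range.mp hq
    have j1 := m3 (n := n) hq
    have j2 := m4 hq
    refine ⟨by simp only [Set.mem_union, j1, true_or, or_true],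
      by simp only [Set.mem_union, j2, or_true], rfl, fun _ => ?_⟩
    change 1 - rq D m n d q ≠ 0
    exact sub_ne_zero.2 (hρ q (hq1 hq).1).symm
  refine app (good_par fun I hI => ?_) ?_
  · obtain ⟨q, hq, rfl⟩ := List.mem_map.mp hI
    have hq := List.mem_range.mp hq
    obtain ⟨q3, q4⟩ := q_lt hq
    have q5 := Nat.zero_le (q / (n + 1))
    have j1 := mI (P := m + (D + 1)) (t := n + 1 + q / (n + 1)) (by omega)
    have j2 := m5 hq
    refine ⟨by simp only [Set.mem_union, j1, true_or, or_true],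
      by simp only [Set.mem_union, j2, or_true], ?_, nofun⟩
    change xq D m n d q = ((n + 1 + q / (n + 1) : ℕ) : ℝ) + rq D m n d q *
      ((n + 1 + q / (n + 1) - q % (n + 1) : ℕ) : ℝ) / (1 - rq D m n d q)
    unfold xq xz
    rw [Nat.cast_sub (q4.trans (by omega))]
  refine app (pw_good _ rfl rfl 24 36 (fun q => xq D m n d q) (fun _ => rfl) (fun _ _ => rfl) _
    (by omega) (by simp only [Set.mem_union, k2, true_or]) (by simp only [Set.mem_union, k3, true_or])
    fun q hq => Or.inr (m6 hq)) ?_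
  refine good_par fun I hI => ?_
  obtain ⟨t, ht, rfl⟩ := List.mem_map.mp hI
  have ht := List.mem_range.mp ht
  have q1 : t / (D + 1) < m + (D + 1) + 1 := Nat.div_lt_of_lt_mul (by rwa [Nat.mul_comm])
  have q2 : t % (D + 1) < D + 1 := Nat.mod_lt _ (by omega)
  have j1 := mP (P := m + (D + 1)) (v := t / (D + 1)) (by omega) q2
  refine ⟨by simp only [Set.mem_union, k3, true_or],
    by simp only [Set.mem_union, j1, true_or, or_true], ?_, nofun⟩
  change -((t / (D + 1) : ℕ) : ℝ) ^ (t % (D + 1)) = 0 - ((t / (D + 1) : ℕ) : ℝ) ^ (t % (D + 1))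
  ring

/-- The targets of the auxiliary part. -/
theorem prX_dst (q : Reg) (hq : q ∈ (prX D m n).map Instr.dst) : ∃ a l, q = a :: l ∧ 20 ≤ a := by
  obtain ⟨I, hI, rfl⟩ := List.mem_map.mp hq
  simp only [prX, List.mem_append] at hI
  rcases hI with hI | hI | hI | hI | hI | hI | hI | hI | hI | hI | hI | hI
  · obtain ⟨t, -, h⟩ := (prI_dst _ _).mp (List.mem_map.mpr ⟨I, hI, rfl⟩)
    exact ⟨_, _, h, by omega⟩
  · obtain ⟨v, s, -, -, h⟩ := (prP_dst (by omega) _).mp (List.mem_map.mpr ⟨I, hI, rfl⟩)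
    exact ⟨_, _, h, by omega⟩
  · obtain ⟨t, -, rfl⟩ := List.mem_map.mp hI
    refine ⟨26, [t], by split_ifs <;> rfl, by omega⟩
  · obtain ⟨t, -, rfl⟩ := List.mem_map.mp hI
    exact ⟨_, _, rfl, by omega⟩
  · obtain ⟨t, -, rfl⟩ := List.mem_map.mp hI
    exact ⟨_, _, rfl, by omega⟩
  · obtain ⟨t, -, rfl⟩ := List.mem_map.mp hI
    exact ⟨_, _, rfl, by omega⟩
  · obtain ⟨t, -, rfl⟩ := List.mem_map.mp hI
    exact ⟨_, _, rfl, by omega⟩
  · obtain ⟨t, -, rfl⟩ := List.mem_map.mp hI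
    exact ⟨_, _, rfl, by omega⟩
  · obtain ⟨t, -, rfl⟩ := List.mem_map.mp hI
    exact ⟨_, _, rfl, by omega⟩
  · obtain ⟨t, -, rfl⟩ := List.mem_map.mp hI
    exact ⟨_, _, rfl, by omega⟩
  · obtain ⟨t, -, rfl⟩ := List.mem_map.mp hI
    refine ⟨24, [t / (D + 1), t % (D + 1)], by split_ifs <;> rfl, by omega⟩
  · obtain ⟨t, -, rfl⟩ := List.mem_map.mp hI
    exact ⟨_, _, rfl, by omega⟩

theorem mem_X {r : Reg} {P : List Instr} (h : r ∈ ds P) (hP : ∀ I ∈ P, I ∈ prX D m n) :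
    r ∈ (prX D m n).map Instr.dst := by
  obtain ⟨I, hI, rfl⟩ := h
  exact List.mem_map.mpr ⟨I, hP I hI, rfl⟩

theorem x21 {v s : ℕ} (hv : v ≤ m + (D + 1)) (hs : s < D + 1) :
    ([21, v, s] : Reg) ∈ (prX D m n).map Instr.dst := by
  refine mem_X (mP hv hs) fun I hI => ?_
  simp only [prX, List.mem_append]
  exact Or.inr (Or.inl hI)

theorem x22 {v s : ℕ} (hv : v ≤ m + (D + 1)) (hs : s < D + 1) :
    ([22, v, s] : Reg) ∈ (prX D m n).map Instr.dst := by
  refine mem_X (P := prN (m + (D + 1)) (D + 1)) ?_ fun I hI => ?_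
  · refine ⟨_, List.mem_map.mpr ⟨v * (D + 1) + s, List.mem_range.mpr ?_, rfl⟩, ?_⟩
    · have h2 : (v + 1) * (D + 1) ≤ (m + (D + 1) + 1) * (D + 1) :=
        Nat.mul_le_mul_right _ (by omega)
      rw [Nat.add_mul, Nat.one_mul] at h2
      omega
    · change [22, (v * (D + 1) + s) / (D + 1), (v * (D + 1) + s) % (D + 1)] = [22, v, s]
      rw [idx_div _ _ hs, idx_mod _ _ hs]
  · simp only [prX, List.mem_append]
    iterate 11 refine Or.inr ?_
    exact hI

theorem x24 {q s : ℕ} (hq : q < m * (n + 1)) (hs : s < D + 1) :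
    ([24, q, s] : Reg) ∈ (prX D m n).map Instr.dst := by
  refine mem_X (P := prH (m * (n + 1)) (D + 1)) ?_ fun I hI => ?_
  · refine ⟨_, List.mem_map.mpr ⟨q * (D + 1) + s, List.mem_range.mpr ?_, rfl⟩, ?_⟩
    · have h2 : (q + 1) * (D + 1) ≤ (m * (n + 1)) * (D + 1) :=
        Nat.mul_le_mul_right _ (by omega)
      rw [Nat.add_mul, Nat.one_mul] at h2
      omega
    · have e : ([24, (q * (D + 1) + s) / (D + 1), (q * (D + 1) + s) % (D + 1)] : Reg) =
          [24, q, s] := by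
        rw [idx_div _ _ hs, idx_mod _ _ hs]
      rw [← e]
      split_ifs <;> rfl
  · simp only [prX, List.mem_append]
    iterate 10 refine Or.inr ?_
    exact Or.inl hI

end Pool.Agent.H37.BP
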