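import Mathlib

/-! Lagrange interpolation at `0, ..., D`, and polynomials in two variables. -/

set_option autoImplicit false

namespace Pool.Agent.H37.BP

open Finset Polynomial

/-- The products of the differences of the nodes. -/
noncomputable def w (N c : ℕ) : ℝ := ∏ t ∈ (range (N + 1)).erase c, ((c : ℝ) - t)

theorem w_sign {N c : ℕ} (h : c ≤ N) : 0 < (-1) ^ (N - c) * w N c := by
  induction N, h using Nat.le_induction with
  | base =>
    rw [Nat.sub_self, pow_zero, one_mul]
    refine prod_pos fun t ht => ?_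
    obtain ⟨h1, h2⟩ := mem_erase.1 ht
    have h3 := mem_range.1 h2
    have h4 : (t : ℝ) < c := by
      have : t < c := by omega
      exact_mod_cast this
    linarith
  | succ N hN ih =>
    have e : (range (N + 1 + 1)).erase c = insert (N + 1) ((range (N + 1)).erase c) := by
      ext t
      simp only [mem_erase, mem_range, mem_insert]
      omega
    unfold w at ih ⊢
    rw [e, prod_insert (by simp), show N + 1 - c = (N - c) + 1 by omega, pow_succ]
    have h4 : (c : ℝ) < ((N + 1 : ℕ) : ℝ) := by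
      have : c < N + 1 := by omega
      exact_mod_cast this
    have h5 : 0 < ((N + 1 : ℕ) : ℝ) - c := by linarith
    have := mul_pos ih h5
    nlinarith

theorem w_ne {N c : ℕ} (h : c ≤ N) : w N c ≠ 0 := by
  have := w_sign h
  intro h0
  rw [h0, mul_zero] at this
  exact lt_irrefl _ this

/-- The Lagrange polynomials. -/
noncomputable def lp (D c : ℕ) : ℝ[X] :=
  C (w D c)⁻¹ * ∏ t ∈ (range (D + 1)).erase c, (X - C (t : ℝ))

/-- Their values. -/
noncomputable def lg (D c : ℕ) (x : ℝ) : ℝ :=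
  (w D c)⁻¹ * ∏ t ∈ (range (D + 1)).erase c, (x - t)

theorem lp_eval (D c : ℕ) (x : ℝ) : (lp D c).eval x = lg D c x := by
  unfold lp lg
  rw [eval_mul, eval_C, eval_prod]
  simp

theorem lp_deg {D c : ℕ} (h : c ≤ D) : (lp D c).natDegree ≤ D := by
  unfold lp
  refine (natDegree_C_mul_le _ _).trans ?_
  rw [natDegree_prod_of_monic _ _ fun t _ => monic_X_sub_C _]
  simp only [natDegree_X_sub_C, sum_const, smul_eq_mul, mul_one]
  rw [card_erase_of_mem (mem_range.2 (by omega)), card_range]
  omega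

theorem lg_self {D c : ℕ} (h : c ≤ D) : lg D c c = 1 := by
  unfold lg
  exact inv_mul_cancel₀ (w_ne h)

theorem lg_ne {D c c' : ℕ} (h : c' ≤ D) (hne : c' ≠ c) : lg D c c' = 0 := by
  unfold lg
  rw [prod_eq_zero (mem_erase.2 ⟨hne, mem_range.2 (by omega)⟩) (sub_self _), mul_zero]

/-- Two polynomials of degree at most `D` with the same values at `0, ..., D` are equal. -/
theorem eq_of_nodes {D : ℕ} {P Q : ℝ[X]} (hP : P.natDegree ≤ D) (hQ : Q.natDegree ≤ D)
    (h : ∀ c ≤ D, P.eval (c : ℝ) = Q.eval (c : ℝ)) : P = Q := by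
  rw [← sub_eq_zero]
  refine eq_zero_of_natDegree_lt_card_of_eval_eq_zero' (P - Q)
    ((range (D + 1)).image fun t : ℕ => (t : ℝ)) ?_ ?_
  · intro x hx
    obtain ⟨t, ht, rfl⟩ := mem_image.1 hx
    rw [eval_sub, h t (by have := mem_range.1 ht; omega), sub_self]
  · rw [card_image_of_injective _ Nat.cast_injective, card_range]
    have := natDegree_sub_le P Q
    have : max P.natDegree Q.natDegree ≤ D := max_le hP hQ
    omega

/-- Lagrange interpolation. -/
theorem interp {D : ℕ} {P : ℝ[X]} (hP : P.natDegree ≤ D) (x : ℝ) :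
    P.eval x = ∑ c ∈ range (D + 1), P.eval (c : ℝ) * lg D c x := by
  have h : P = ∑ c ∈ range (D + 1), C (P.eval (c : ℝ)) * lp D c := by
    refine eq_of_nodes hP ?_ fun c hc => ?_
    · refine natDegree_sum_le_of_forall_le _ _ fun c hc => ?_
      exact (natDegree_C_mul_le _ _).trans (lp_deg (by have := mem_range.1 hc; omega))
    · rw [eval_finsetSum, sum_eq_single c]
      · rw [eval_mul, eval_C, lp_eval, lg_self hc, mul_one]
      · intro c' hc' hne
        rw [eval_mul, lp_eval, lg_ne hc (Ne.symm hne), mul_zero]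
      · intro h
        exact absurd (mem_range.2 (by omega)) h
  have h2 := congrArg (fun Q => Polynomial.eval x Q) h
  simp only [eval_finsetSum, eval_mul, eval_C, lp_eval] at h2
  exact h2

/-- Two polynomials of degree at most `D` with `D` common zeros are proportional. -/
theorem prop_of_roots {D : ℕ} {P Q : ℝ[X]} (hP : P.natDegree ≤ D) (hQ : Q.natDegree ≤ D)
    {s : Finset ℝ} (hs : s.card = D) (h1 : ∀ x ∈ s, P.eval x = 0) (h2 : ∀ x ∈ s, Q.eval x = 0)
    {y : ℝ} (hy : y ∉ s) (x : ℝ) : P.eval x * Q.eval y = Q.eval x * P.eval y := by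
  have h : C (Q.eval y) * P - C (P.eval y) * Q = 0 := by
    refine eq_zero_of_natDegree_lt_card_of_eval_eq_zero' _ (insert y s) ?_ ?_
    · intro z hz
      simp only [eval_sub, eval_mul, eval_C]
      rcases mem_insert.1 hz with rfl | hz
      · ring
      · rw [h1 z hz, h2 z hz]
        ring
    · rw [card_insert_of_notMem hy, hs]
      have h3 := natDegree_sub_le (C (Q.eval y) * P) (C (P.eval y) * Q)
      have h4 : max (C (Q.eval y) * P).natDegree (C (P.eval y) * Q).natDegree ≤ D :=
        max_le ((natDegree_C_mul_le _ _).trans hP) ((natDegree_C_mul_le _ _).trans hQ)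
      omega
  have h5 := congrArg (fun R => Polynomial.eval x R) h
  simp only [eval_sub, eval_mul, eval_C, eval_zero] at h5
  linarith

/-! ### Two variables -/

/-- The value of a polynomial in two variables. -/
noncomputable def ev (D : ℕ) (z : ℕ → ℕ → ℝ) (x y : ℝ) : ℝ :=
  ∑ a ∈ range (D + 1), ∑ b ∈ range (D + 1), z a b * (x ^ a * y ^ b)

/-- The restriction to a vertical line, in the variable `y - m`. -/
noncomputable def colP (D m : ℕ) (z : ℕ → ℕ → ℝ) (x : ℝ) : ℝ[X] :=
  (∑ b ∈ range (D + 1), C (∑ a ∈ range (D + 1), z a b * x ^ a) * X ^ b).comp (X + C (m : ℝ))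

/-- The restriction to a horizontal line. -/
noncomputable def rowP (D : ℕ) (z : ℕ → ℕ → ℝ) (y : ℝ) : ℝ[X] :=
  ∑ a ∈ range (D + 1), C (∑ b ∈ range (D + 1), z a b * y ^ b) * X ^ a

theorem sum_deg (D : ℕ) (f : ℕ → ℝ) : (∑ b ∈ range (D + 1), C (f b) * X ^ b).natDegree ≤ D := by
  refine natDegree_sum_le_of_forall_le _ _ fun b hb => ?_
  refine (natDegree_C_mul_X_pow_le _ _).trans ?_
  have := mem_range.1 hb
  omega

theorem colP_deg (D m : ℕ) (z : ℕ → ℕ → ℝ) (x : ℝ) : (colP D m z x).natDegree ≤ D := by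
  unfold colP
  refine natDegree_comp_le.trans ?_
  rw [natDegree_X_add_C, mul_one]
  exact sum_deg _ _

theorem rowP_deg (D : ℕ) (z : ℕ → ℕ → ℝ) (y : ℝ) : (rowP D z y).natDegree ≤ D := sum_deg _ _

theorem colP_eval (D m : ℕ) (z : ℕ → ℕ → ℝ) (x y : ℝ) :
    (colP D m z x).eval y = ev D z x (m + y) := by
  unfold colP ev
  rw [eval_comp, eval_add, eval_X, eval_C, eval_finsetSum, sum_comm]
  refine sum_congr rfl fun b _ => ?_
  rw [eval_mul, eval_C, eval_pow, eval_X, sum_mul]
  refine sum_congr rfl fun a _ => ?_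
  rw [add_comm y]
  ring

theorem rowP_eval (D : ℕ) (z : ℕ → ℕ → ℝ) (x y : ℝ) :
    (rowP D z y).eval x = ev D z x y := by
  unfold rowP ev
  rw [eval_finsetSum]
  refine sum_congr rfl fun a _ => ?_
  rw [eval_mul, eval_C, eval_pow, eval_X, sum_mul]
  refine sum_congr rfl fun b _ => ?_
  ring

/-- The polynomial with given restrictions to the lines `x = c`. -/
noncomputable def mk (D m : ℕ) (g : ℕ → ℝ[X]) (a b : ℕ) : ℝ :=
  ∑ c ∈ range (D + 1), (lp D c).coeff a * ((g c).comp (X - C (m : ℝ))).coeff b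

theorem eval_coeff {D : ℕ} {P : ℝ[X]} (hP : P.natDegree ≤ D) (x : ℝ) :
    P.eval x = ∑ a ∈ range (D + 1), P.coeff a * x ^ a := by
  rw [eval_eq_sum_range' (n := D + 1) (by omega)]

theorem ev_mk {D m : ℕ} {g : ℕ → ℝ[X]} (hg : ∀ c, (g c).natDegree ≤ D) (x y : ℝ) :
    ev D (mk D m g) x y = ∑ c ∈ range (D + 1), lg D c x * (g c).eval (y - m) := by
  have h1 : ∀ c ∈ range (D + 1), lg D c x * (g c).eval (y - m) =
      ∑ a ∈ range (D + 1), ∑ b ∈ range (D + 1), (lp D c).coeff a *
        ((g c).comp (X - C (m : ℝ))).coeff b * (x ^ a * y ^ b) := by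
    intro c hc
    have e1 := eval_coeff (lp_deg (show c ≤ D by have := mem_range.1 hc; omega)) x
    have hd : ((g c).comp (X - C (m : ℝ))).natDegree ≤ D := by
      refine natDegree_comp_le.trans ?_
      rw [natDegree_X_sub_C, mul_one]
      exact hg c
    have e2 := eval_coeff hd y
    rw [eval_comp, eval_sub, eval_X, eval_C] at e2
    rw [← lp_eval, e1, e2, sum_mul_sum]
    refine sum_congr rfl fun a _ => sum_congr rfl fun b _ => ?_
    ring
  rw [sum_congr rfl h1, sum_comm]
  unfold ev mk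
  refine sum_congr rfl fun a _ => ?_
  rw [sum_comm]
  refine sum_congr rfl fun b _ => ?_
  rw [sum_mul]

end Pool.Agent.H37.BP
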