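import Pool.Graph.R_pool_sql_team_seeded_35f281b4.K7.H40.PU.Store
import Pool.Agent.H37.BP.Defs
import Pool.Agent.H37.BP.Back

set_option autoImplicit false

/-! The new system. -/

namespace Pool.Agent.H37.BP

open Pool.Agent.NPC Pool.Agent.H558R2 Pool.Agent.H622R3.SM
open Pool.Agent.R533.GU Pool.Agent.K7.H40.NU
open Pool.Agent.K7.H40.PU (pr1 V1 V1_D0 pr1_good pr1_dst th dd abs_dd_le th_pos exV sm_th)

/-! ### Sizes -/

/-- The defect. -/
def rB (m n : ℕ) : ℕ := 8 * ((m + 2) * (n + 1))

/-- The degree. -/
def dB (k m n : ℕ) : ℕ := m * (n + 1) + n + m + 2 * rB m n ^ k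

/-- The number of cells. -/
def gB (D : ℕ) : ℕ := (D + 1) * (D + 1)

/-- The number of inequalities. -/
def mB (D m n : ℕ) : ℕ := 2 * gB D + 4 * (m * (n + 1)) + m + 1

/-- The exponent. -/
def tB (k m n : ℕ) : ℕ := gB (dB k m n) ^ k + 2 * dB k m n + 4

theorem dB_D (k m n : ℕ) : (m + 1) * (n + 1) ≤ dB k m n + 1 := by
  unfold dB
  have : (m + 1) * (n + 1) = m * (n + 1) + (n + 1) := by ring
  omega

theorem dB_c (k m n : ℕ) : n + m ≤ dB k m n := by
  unfold dB
  omega

theorem dB_p (k m n : ℕ) : ∃ X, dB k m n = rw' n m n + m + 2 * X :=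
  ⟨rB m n ^ k, by unfold dB rw'; omega⟩

/-! ### The inequalities -/

/-- The number of the third kind of condition. -/
def qR (D m n I : ℕ) : ℕ := (I - (2 * gB D + 2 * (m * (n + 1)))) / 2

/-- The third kind of condition. -/
def tR (D m n I : ℕ) : Prop :=
  2 * gB D + 2 * (m * (n + 1)) ≤ I ∧ I < 2 * gB D + 4 * (m * (n + 1))

instance (D m n I : ℕ) : Decidable (tR D m n I) := by unfold tR; infer_instance

/-- Negative inequalities. -/
def sB (D m n I : ℕ) : Prop := I < 2 * gB D + 4 * (m * (n + 1)) ∧ I % 2 = 1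

instance (D m n I : ℕ) : Decidable (sB D m n I) := by unfold sB; infer_instance

/-- The first coordinate, if it is an integer. -/
def xc (D m n I : ℕ) : ℕ :=
  if I < 2 * gB D then (if pat m n (I / 2 / (D + 1)) (I / 2 % (D + 1)) then D else
    I / 2 / (D + 1))
  else if I < 2 * gB D + 2 * (m * (n + 1)) then (I - 2 * gB D) / 2 / m
  else if I < 2 * gB D + 4 * (m * (n + 1)) then D
  else if I < 2 * gB D + 4 * (m * (n + 1)) + m then n + 1 + (I - (2 * gB D + 4 * (m * (n + 1))))
  else n

/-- The second coordinate. -/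
def yc (D m n I : ℕ) : ℕ :=
  if I < 2 * gB D then (if pat m n (I / 2 / (D + 1)) (I / 2 % (D + 1)) then m else
    m + I / 2 % (D + 1))
  else if I < 2 * gB D + 2 * (m * (n + 1)) then (I - 2 * gB D) / 2 % m
  else if I < 2 * gB D + 4 * (m * (n + 1)) then m + qR D m n I
  else if I < 2 * gB D + 4 * (m * (n + 1)) + m then m + (D + 1)
  else m + rw' n m n

/-- The coefficient of a pair. -/
noncomputable def rq (D m n : ℕ) (d : ℕ → ℕ → ℝ) (q : ℕ) : ℝ :=
  d (q / (n + 1)) (q % (n + 1)) * (((D : ℝ) + 1 - q) / ps m q)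

/-- The third zero of a pair. -/
noncomputable def xq (D m n : ℕ) (d : ℕ → ℕ → ℝ) (q : ℕ) : ℝ :=
  xz (q % (n + 1)) (n + 1 + q / (n + 1)) (rq D m n d q)

theorem rw'_q (n q : ℕ) : rw' n (q / (n + 1)) (q % (n + 1)) = q := by
  unfold rw'
  exact Nat.div_add_mod' q (n + 1)

theorem rq_eq (D m n : ℕ) (d : ℕ → ℕ → ℝ) (q : ℕ) :
    rq D m n d q = ro D m n d (q / (n + 1)) (q % (n + 1)) := by
  unfold rq ro
  rw [rw'_q]

/-- The first coordinate. -/
noncomputable def xv (D m n : ℕ) (d : ℕ → ℕ → ℝ) (I : ℕ) : ℝ :=
  if tR D m n I then xq D m n d (qR D m n I) else xc D m n I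

/-- The left-hand side. -/
noncomputable def gv (D m n : ℕ) (d : ℕ → ℕ → ℝ) (z : ℕ → ℕ → ℝ) (I : ℕ) : ℝ :=
  (if sB D m n I then -1 else 1) * ev D z (xv D m n d I) (yc D m n I)

variable {D m n : ℕ}

theorem q_lt {q : ℕ} (hq : q < m * (n + 1)) : q / (n + 1) < m ∧ q % (n + 1) ≤ n :=
  ⟨Nat.div_lt_of_lt_mul (by rwa [Nat.mul_comm]), by have := Nat.mod_lt q (show n + 1 > 0 by omega); omega⟩

theorem pat_D (hc : n + m < D) (r : ℕ) : ¬ pat m n D r := by
  unfold pat
  omega

theorem two_eq {c : ℝ} (h1 : 0 ≤ 1 * c) (h2 : 0 ≤ -1 * c) : c = 0 := by linarith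

/-- The inequalities are equivalent to the conditions. -/
theorem rows_iff (hc : n + m < D) (d : ℕ → ℕ → ℝ)
    (z : ℕ → ℕ → ℝ) : (∀ I < mB D m n, (if I + 1 = mB D m n then 1 else 0) ≤ gv D m n d z I) ↔
      Sys D m n d z := by
  have hm1 : ∀ {I : ℕ}, I < 2 * gB D + 4 * (m * (n + 1)) + m → I + 1 ≠ mB D m n := by
    intro I h
    unfold mB
    omega
  constructor
  · intro h
    have h0 : ∀ {I : ℕ}, I < 2 * gB D + 4 * (m * (n + 1)) + m → 0 ≤ gv D m n d z I := by
      intro I hI
      have h1 := h I (by unfold mB; omega)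
      rwa [if_neg (hm1 hI)] at h1
    refine ⟨?_, ?_, ?_, ?_, ?_⟩
    · intro c hcD r hr hpat
      have hg : c * (D + 1) + r < gB D := by
        unfold gB
        have h2 : (c + 1) * (D + 1) ≤ (D + 1) * (D + 1) := Nat.mul_le_mul_right _ (by omega)
        rw [Nat.add_mul, Nat.one_mul] at h2
        omega
      have e1 : (c * (D + 1) + r) / (D + 1) = c := by
        rw [Nat.mul_comm, Nat.mul_add_div (by omega), Nat.div_eq_of_lt (by omega), add_zero]
      have e2 : (c * (D + 1) + r) % (D + 1) = r := by
        rw [Nat.mul_comm, Nat.mul_add_mod, Nat.mod_eq_of_lt (by omega)]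
      have key : ∀ s < 2, xv D m n d (2 * (c * (D + 1) + r) + s) = c ∧
          yc D m n (2 * (c * (D + 1) + r) + s) = m + r := by
        intro s hs
        have e3 : (2 * (c * (D + 1) + r) + s) / 2 = c * (D + 1) + r := by omega
        constructor
        · unfold xv xc
          rw [if_neg (by unfold tR; omega), if_pos (by omega), e3, e1, e2, if_neg hpat]
        · unfold yc
          rw [if_pos (by omega), e3, e1, e2, if_neg hpat]
      have h1 := h0 (show 2 * (c * (D + 1) + r) + 0 < _ by omega)
      have h2 := h0 (show 2 * (c * (D + 1) + r) + 1 < _ by omega)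
      unfold gv at h1 h2
      rw [(key 0 (by omega)).1, (key 0 (by omega)).2, if_neg (by unfold sB; omega)] at h1
      rw [(key 1 (by omega)).1, (key 1 (by omega)).2, if_pos (by unfold sB; omega)] at h2
      have h3 := two_eq h1 h2
      push_cast at h3
      exact h3
    · intro j hj l hl
      have hg : j * m + l < m * (n + 1) := by
        have h2 : (j + 1) * m ≤ (n + 1) * m := Nat.mul_le_mul_right _ (by omega)
        rw [Nat.add_mul, Nat.one_mul] at h2
        rw [Nat.mul_comm m]
        omega
      have e1 : (j * m + l) / m = j := by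
        rw [Nat.mul_comm, Nat.mul_add_div (by omega), Nat.div_eq_of_lt (by omega), add_zero]
      have e2 : (j * m + l) % m = l := by
        rw [Nat.mul_comm, Nat.mul_add_mod, Nat.mod_eq_of_lt (by omega)]
      have key : ∀ s < 2, xv D m n d (2 * gB D + (2 * (j * m + l) + s)) = j ∧
          yc D m n (2 * gB D + (2 * (j * m + l) + s)) = l := by
        intro s hs
        have e3 : (2 * gB D + (2 * (j * m + l) + s) - 2 * gB D) / 2 = j * m + l := by omega
        constructor
        · unfold xv xc
          rw [if_neg (by unfold tR; omega), if_neg (by omega), if_pos (by omega), e3, e1]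
        · unfold yc
          rw [if_neg (by omega), if_pos (by omega), e3, e2]
      have h1 := h0 (show 2 * gB D + (2 * (j * m + l) + 0) < _ by omega)
      have h2 := h0 (show 2 * gB D + (2 * (j * m + l) + 1) < _ by omega)
      unfold gv at h1 h2
      rw [(key 0 (by omega)).1, (key 0 (by omega)).2, if_neg (by unfold sB; omega)] at h1
      rw [(key 1 (by omega)).1, (key 1 (by omega)).2, if_pos (by unfold sB; omega)] at h2
      exact two_eq h1 h2
    · intro i hi j hj
      have hg : i * (n + 1) + j < m * (n + 1) := idx_lt hi (by omega)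
      have e1 : (i * (n + 1) + j) / (n + 1) = i := idx_div _ _ (by omega)
      have e2 : (i * (n + 1) + j) % (n + 1) = j := idx_mod _ _ (by omega)
      have key : ∀ s < 2, xv D m n d (2 * gB D + 2 * (m * (n + 1)) +
            (2 * (i * (n + 1) + j) + s)) = xz j (n + 1 + i) (ro D m n d i j) ∧
          yc D m n (2 * gB D + 2 * (m * (n + 1)) + (2 * (i * (n + 1) + j) + s)) =
            m + rw' n i j := by
        intro s hs
        have e3 : qR D m n (2 * gB D + 2 * (m * (n + 1)) + (2 * (i * (n + 1) + j) + s)) =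
            i * (n + 1) + j := by
          unfold qR
          omega
        constructor
        · unfold xv
          rw [if_pos (by unfold tR; omega), e3]
          unfold xq
          rw [rq_eq, e1, e2]
        · unfold yc
          rw [if_neg (by omega), if_neg (by omega), if_pos (by omega), e3]
          rfl
      have h1 := h0 (show 2 * gB D + 2 * (m * (n + 1)) + (2 * (i * (n + 1) + j) + 0) < _ by omega)
      have h2 := h0 (show 2 * gB D + 2 * (m * (n + 1)) + (2 * (i * (n + 1) + j) + 1) < _ by omega)
      unfold gv at h1 h2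
      rw [(key 0 (by omega)).1, (key 0 (by omega)).2, if_neg (by unfold sB gB; omega)] at h1
      rw [(key 1 (by omega)).1, (key 1 (by omega)).2, if_pos (by unfold sB gB; omega)] at h2
      have h3 := two_eq h1 h2
      push_cast at h3
      exact h3
    · intro i hi
      have h1 := h0 (show 2 * gB D + 4 * (m * (n + 1)) + i < _ by omega)
      unfold gv xv xc yc at h1
      rw [if_neg (by unfold sB; omega), if_neg (by unfold tR; omega), if_neg (by omega),
        if_neg (by omega), if_neg (by omega), if_pos (by omega), if_neg (by omega),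
        if_neg (by omega), if_neg (by omega), if_pos (by omega), one_mul,
        Nat.add_sub_cancel_left] at h1
      push_cast at h1 ⊢
      exact h1
    · have h1 := h (2 * gB D + 4 * (m * (n + 1)) + m) (by unfold mB; omega)
      unfold gv xv xc yc at h1
      rw [if_pos (by unfold mB; omega), if_neg (by unfold sB; omega),
        if_neg (by unfold tR; omega), if_neg (by omega),
        if_neg (by omega), if_neg (by omega), if_neg (by omega), if_neg (by omega),
        if_neg (by omega), if_neg (by omega), if_neg (by omega), one_mul] at h1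
      push_cast at h1 ⊢
      exact h1
  · rintro ⟨hZ, hC, hR, hI, hN⟩ I hI'
    by_cases h4 : I < 2 * gB D + 4 * (m * (n + 1))
    · rw [if_neg (hm1 (by omega))]
      have h0 : ev D z (xv D m n d I) (yc D m n I) = 0 := by
        by_cases h1 : I < 2 * gB D
        · unfold xv xc yc
          rw [if_neg (by unfold tR; omega), if_pos h1, if_pos h1]
          have hr : I / 2 % (D + 1) ≤ D := by
            have := Nat.mod_lt (I / 2) (show D + 1 > 0 by omega)
            omega
          have hq : I / 2 / (D + 1) ≤ D := by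
            have : I / 2 / (D + 1) < D + 1 := Nat.div_lt_of_lt_mul (by
              change I / 2 < gB D
              omega)
            omega
          by_cases hp : pat m n (I / 2 / (D + 1)) (I / 2 % (D + 1))
          · rw [if_pos hp, if_pos hp]
            have h5 := hZ D le_rfl 0 (Nat.zero_le _) (pat_D hc 0)
            rw [Nat.cast_zero, add_zero] at h5
            exact h5
          · rw [if_neg hp, if_neg hp]
            have h5 := hZ _ hq _ hr hp
            push_cast
            exact h5
        · by_cases h2 : I < 2 * gB D + 2 * (m * (n + 1))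
          · unfold xv xc yc
            rw [if_neg (by unfold tR; omega), if_neg h1, if_pos h2, if_neg h1, if_pos h2]
            have hm : 0 < m := by
              rcases Nat.eq_zero_or_pos m with h | h
              · rw [h, Nat.zero_mul] at h2
                omega
              · exact h
            refine hC _ ?_ _ (Nat.mod_lt _ hm)
            have : (I - 2 * gB D) / 2 / m < n + 1 := Nat.div_lt_of_lt_mul (by omega)
            omega
          · have h3 : tR D m n I := ⟨by omega, h4⟩
            have hq : qR D m n I < m * (n + 1) := by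
              unfold qR
              omega
            obtain ⟨g1, g2⟩ := q_lt hq
            have h5 := hR _ g1 _ g2
            rw [rw'_q, ← rq_eq] at h5
            unfold xv yc
            rw [if_pos h3, if_neg h1, if_neg h2, if_pos h4]
            push_cast
            exact h5
      unfold gv
      rw [h0, mul_zero]
    · by_cases h5 : I < 2 * gB D + 4 * (m * (n + 1)) + m
      · rw [if_neg (hm1 h5)]
        have h6 := hI (I - (2 * gB D + 4 * (m * (n + 1)))) (by omega)
        unfold gv xv xc yc
        rw [if_neg (by unfold sB; omega), if_neg (by unfold tR; omega), if_neg (by omega),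
          if_neg (by omega), if_neg (by omega), if_pos h5, if_neg (by omega),
          if_neg (by omega), if_neg (by omega), if_pos h5, one_mul]
        push_cast at h6 ⊢
        exact h6
      · have e : I = 2 * gB D + 4 * (m * (n + 1)) + m := by
          unfold mB at hI'
          omega
        rw [if_pos (by unfold mB; omega)]
        unfold gv xv xc yc
        rw [if_neg (by unfold sB; omega), if_neg (by unfold tR; omega), if_neg (by omega),
          if_neg (by omega), if_neg (by omega), if_neg (by omega), if_neg (by omega),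
          if_neg (by omega), if_neg (by omega), if_neg (by omega), one_mul]
        push_cast
        exact hN

theorem sum_grid (f : ℕ → ℝ) (K W : ℕ) : ∑ J ∈ Finset.range (K * W), f J =
    ∑ a ∈ Finset.range K, ∑ c ∈ Finset.range W, f (a * W + c) := by
  induction K with
  | zero => simp
  | succ K ih => rw [Nat.succ_mul, Finset.sum_range_add, ih, Finset.sum_range_succ]

/-! ### The new system -/

/-- The new matrix. -/
noncomputable def nM {m n : ℕ} (E D : ℕ) (A : Matrix (Fin m) (Fin n) ℝ) (b : Fin m → ℝ) :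
    Matrix (Fin (mB D m n)) (Fin (gB D)) ℝ := fun I J =>
  (if sB D m n I then -1 else 1) * (xv D m n (dd E A b) I ^ ((J : ℕ) / (D + 1)) *
    (yc D m n I : ℝ) ^ ((J : ℕ) % (D + 1)))

/-- The new right-hand side. -/
def vM (D m n : ℕ) : Fin (mB D m n) → ℝ := fun I => if (I : ℕ) + 1 = mB D m n then 1 else 0

variable (E : ℕ) (A : Matrix (Fin m) (Fin n) ℝ) (b : Fin m → ℝ)

theorem nM_mulVec (x : Fin (gB D) → ℝ) (I : Fin (mB D m n)) :
    (nM E D A b).mulVec x I =
      gv D m n (dd E A b) (fun a c => exV x (a * (D + 1) + c)) I := by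
  unfold Matrix.mulVec dotProduct gv ev
  have e : ∀ J : Fin (gB D), nM E D A b I J * x J = (if sB D m n I then -1 else 1) *
      (exV x (J / (D + 1) * (D + 1) + J % (D + 1)) *
      (xv D m n (dd E A b) I ^ ((J : ℕ) / (D + 1)) * (yc D m n I : ℝ) ^ ((J : ℕ) % (D + 1)))) := by
    intro J
    rw [Nat.div_add_mod']
    unfold nM exV
    rw [dif_pos J.2]
    ring
  rw [Finset.sum_congr rfl fun J _ => e J, ← Finset.mul_sum]
  congr 1
  rw [← Finset.sum_range fun J => exV x (J / (D + 1) * (D + 1) + J % (D + 1)) *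
      (xv D m n (dd E A b) I ^ (J / (D + 1)) * (yc D m n I : ℝ) ^ (J % (D + 1)))]
  unfold gB
  rw [sum_grid]
  refine Finset.sum_congr rfl fun a _ => Finset.sum_congr rfl fun c hc => ?_
  have hc := Finset.mem_range.1 hc
  rw [Nat.mul_comm a, Nat.mul_add_div (by omega), Nat.div_eq_of_lt hc, add_zero,
    Nat.mul_add_mod, Nat.mod_eq_of_lt hc]

theorem ps_ge (m r : ℕ) : 1 ≤ ps m r := by
  unfold ps
  refine Finset.prod_induction _ (fun x => (1 : ℝ) ≤ x)
    (fun a b ha hb => one_le_mul_of_one_le_of_one_le ha hb) le_rfl fun l hl => ?_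
  have h1 : (l : ℝ) + 1 ≤ m := by exact_mod_cast Finset.mem_range.1 hl
  have h2 : (0 : ℝ) ≤ r := Nat.cast_nonneg _
  linarith

/-- The coefficients are small. -/
theorem rq_le {q : ℕ} (hq : q ≤ D) :
    |rq D m n (dd E A b) q| ≤ ((D : ℝ) + 1) / 2 ^ E := by
  have h1 := ps_ge m q
  have h2 : (q : ℝ) ≤ D := by exact_mod_cast hq
  have h3 : (0 : ℝ) ≤ q := Nat.cast_nonneg _
  unfold rq
  rw [abs_mul, abs_div, abs_of_pos (by linarith : (0 : ℝ) < ps m q),
    abs_of_nonneg (by linarith : (0 : ℝ) ≤ (D : ℝ) + 1 - q)]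
  have h4 := abs_dd_le E A b (q / (n + 1)) (q % (n + 1))
  have h5 : ((D : ℝ) + 1 - q) / ps m q ≤ D + 1 := by
    rw [div_le_iff₀ (by linarith)]
    nlinarith
  have h6 : 0 ≤ ((D : ℝ) + 1 - q) / ps m q := div_nonneg (by linarith) (by linarith)
  calc _ ≤ 1 / 2 ^ E * ((D : ℝ) + 1) := mul_le_mul h4 h5 h6 (by positivity)
    _ = _ := by ring

theorem two_pow_D (D : ℕ) : ((D : ℝ) + 1) * (D + 1) ≤ 2 ^ (2 * D) := by
  have h1 : ((D + 1 : ℕ) : ℝ) ≤ 2 ^ D := by
    exact_mod_cast (Nat.succ_le_of_lt (Nat.lt_two_pow_self (n := D)))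
  push_cast at h1
  have h2 : (2 : ℝ) ^ (2 * D) = 2 ^ D * 2 ^ D := by rw [two_mul, pow_add]
  rw [h2]
  have h3 : (0 : ℝ) ≤ D := Nat.cast_nonneg _
  exact mul_le_mul h1 h1 (by linarith) (by positivity)

theorem small_E {X : ℕ} (hE : E = X + 2 * D + 4) :
    ((D : ℝ) + 1) / 2 ^ E * (4 * ((D : ℝ) + 1)) ≤ 1 / 2 ^ X := by
  have h1 := two_pow_D D
  have h2 : (2 : ℝ) ^ E = 2 ^ X * (2 ^ (2 * D) * 16) := by
    rw [hE, pow_add, pow_add]
    ring
  rw [h2, div_mul_eq_mul_div, div_le_div_iff₀ (by positivity) (by positivity), one_mul]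
  have h3 : (0 : ℝ) < 2 ^ X := by positivity
  nlinarith

/-- **The new system is solvable iff the old one is.** -/
theorem nM_iff (k : ℕ) (A : Matrix (Fin m) (Fin n) ℝ) (b : Fin m → ℝ) :
    (∃ z, vM (dB k m n) m n ≤ (nM (tB k m n) (dB k m n) A b).mulVec z) ↔
      ∃ x : Fin n → ℝ, b ≤ A.mulVec x := by
  have hD := dB_D k m n
  have hc := dB_c k m n
  have hp := dB_p k m n
  have hc' : n + m < dB k m n := by
    unfold dB rB
    have h1 : 1 ≤ (8 * ((m + 2) * (n + 1))) ^ k := Nat.one_le_pow _ _ (by positivity)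
    omega
  have hρ : ∀ i < m, ∀ j ≤ n, |ro (dB k m n) m n (dd (tB k m n) A b) i j| *
      (4 * (((dB k m n : ℕ) : ℝ) + 1)) ≤ 1 := by
    intro i hi j hj
    have h1 := rw'_lt (show i ≤ m by omega) hj
    have h2 := rq_le (D := dB k m n) (tB k m n) A b (q := rw' n i j) (by omega)
    rw [rq_eq, rw'_div hj, rw'_mod hj] at h2
    have h3 := small_E (D := dB k m n) (tB k m n) (X := gB (dB k m n) ^ k) rfl
    have h4 : (1 : ℝ) / 2 ^ (gB (dB k m n) ^ k) ≤ 1 := by
      rw [div_le_one (by positivity)]
      exact one_le_pow₀ (by norm_num)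
    have h5 : (0 : ℝ) ≤ 4 * (((dB k m n : ℕ) : ℝ) + 1) := by positivity
    exact (mul_le_mul_of_nonneg_right h2 h5).trans (h3.trans h4)
  generalize dB k m n = D at *
  generalize tB k m n = E at *
  have key : ∀ (i : ℕ) (h : ℕ → ℝ),
      (0 ≤ ∑ j ∈ Finset.range (n + 1), dd E A b i j * h j) ↔
      0 ≤ ∑ j ∈ Finset.range (n + 1), ext A b i j * h j := by
    intro i h
    have e : ∑ j ∈ Finset.range (n + 1), dd E A b i j * h j =
        th E A b * ∑ j ∈ Finset.range (n + 1), ext A b i j * h j := by
      rw [Finset.mul_sum]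
      exact Finset.sum_congr rfl fun j _ => by unfold K7.H40.PU.dd; ring
    rw [e]
    exact mul_nonneg_iff_of_pos_left (th_pos E A b)
  constructor
  · rintro ⟨z, hz⟩
    have hsys : Sys D m n (dd E A b) (fun a c => exV z (a * (D + 1) + c)) := by
      rw [← rows_iff hc']
      intro I hI
      have h1 := hz ⟨I, hI⟩
      rw [nM_mulVec] at h1
      exact h1
    obtain ⟨H, hn, hs⟩ := forth hD hc hp hρ hsys
    refine ⟨fun j => H j / H n, fun i => ?_⟩
    have h1 := (key i H).mp (hs i i.2)
    rw [ext_sum A b i H] at h1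
    have h2 : A.mulVec (fun j : Fin n => H j / H n) i =
        (∑ j : Fin n, A i j * H j) / H n := by
      unfold Matrix.mulVec dotProduct
      rw [Finset.sum_div]
      exact Finset.sum_congr rfl fun j _ => by ring
    rw [h2, le_div_iff₀ hn]
    linarith
  · rintro ⟨x, hx⟩
    have hpos : ∀ i, i < m → 0 ≤ ∑ j ∈ Finset.range (n + 1), dd E A b i j *
        (if h : j < n then x ⟨j, h⟩ else 1) := by
      intro i hi
      rw [key]
      have h1 := ext_sum A b ⟨i, hi⟩ (fun j => if h : j < n then x ⟨j, h⟩ else 1)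
      have h2 := hx ⟨i, hi⟩
      simp only at h1
      rw [h1]
      simp only [Fin.is_lt, dite_true, Fin.eta, lt_irrefl, dite_false, mul_one]
      unfold Matrix.mulVec dotProduct at h2
      linarith
    obtain ⟨Z, hZ⟩ := back hD hc hp hρ (H := fun j => if h : j < n then x ⟨j, h⟩ else 1)
      (by simp) hpos
    rw [← rows_iff hc'] at hZ
    refine ⟨fun J => Z (J / (D + 1)) (J % (D + 1)), fun I => ?_⟩
    rw [nM_mulVec]
    have h1 := hZ I I.2
    have e : gv D m n (dd E A b) (fun a c => exV (fun J : Fin (gB D) =>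
        Z (J / (D + 1)) (J % (D + 1))) (a * (D + 1) + c)) I = gv D m n (dd E A b) Z I := by
      unfold gv ev
      congr 1
      refine Finset.sum_congr rfl fun a ha => Finset.sum_congr rfl fun c hc => ?_
      have ha := Finset.mem_range.1 ha
      have hc := Finset.mem_range.1 hc
      have hlt : a * (D + 1) + c < gB D := by
        unfold gB
        have h2 : (a + 1) * (D + 1) ≤ (D + 1) * (D + 1) := Nat.mul_le_mul_right _ (by omega)
        rw [Nat.add_mul, Nat.one_mul] at h2
        omega
      unfold exV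
      dsimp only
      rw [dif_pos hlt, Nat.mul_comm a, Nat.mul_add_div (by omega), Nat.div_eq_of_lt hc, add_zero,
        Nat.mul_add_mod, Nat.mod_eq_of_lt hc]
    rw [e]
    exact h1

theorem xc_le (hc : n + m ≤ D) {I : ℕ} : xc D m n I ≤ D := by
  unfold xc
  split_ifs with h1 h2 h3 h4 h5
  · exact le_rfl
  · have : I / 2 / (D + 1) < D + 1 := Nat.div_lt_of_lt_mul (by
      change I / 2 < gB D
      omega)
    omega
  · have : (I - 2 * gB D) / 2 / m < n + 1 := Nat.div_lt_of_lt_mul (by omega)
    omega
  · exact le_rfl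
  · omega
  · omega

theorem yc_le (hc : n + m ≤ D) (hD : (m + 1) * (n + 1) ≤ D + 1) {I : ℕ} :
    yc D m n I ≤ m + (D + 1) := by
  unfold yc
  split_ifs with h1 h2 h3 h4 h5
  · omega
  · have := Nat.mod_lt (I / 2) (show D + 1 > 0 by omega)
    omega
  · have hm : 0 < m := by
      rcases Nat.eq_zero_or_pos m with h | h
      · rw [h, Nat.zero_mul] at h3
        omega
      · exact h
    have := Nat.mod_lt ((I - 2 * gB D) / 2) hm
    omega
  · unfold qR
    have : (m + 1) * (n + 1) = m * (n + 1) + (n + 1) := by ring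
    omega
  · omega
  · have := rw'_lt (le_refl m) (le_refl n)
    omega

/-- The new system is in the class. -/
theorem nM_class (k : ℕ) (A : Matrix (Fin m) (Fin n) ℝ) (b : Fin m → ℝ) :
    BiPoly k (mB (dB k m n) m n) (gB (dB k m n)) (nM (tB k m n) (dB k m n) A b)
      (vM (dB k m n) m n) := by
  have hD := dB_D k m n
  have hc := dB_c k m n
  refine ⟨dB k m n, rB m n, fun I => xv (dB k m n) m n (dd (tB k m n) A b) I,
    fun I => yc (dB k m n) m n I, ⟨mB (dB k m n) m n - 1, by unfold mB; omega⟩, ?_, ?_, ?_, ?_, ?_,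
    ?_, ?_⟩
  · unfold gB
    rw [sq]
  · unfold dB
    omega
  · unfold mB rB
    have : (m + 2) * (n + 1) = m * (n + 1) + 2 * (n + 1) := by ring
    have h2 : m ≤ m * (n + 1) := Nat.le_mul_of_pos_right _ (by omega)
    omega
  · intro I
    by_cases h : sB (dB k m n) m n I
    · right
      intro J
      unfold nM
      rw [if_pos h]
      ring
    · left
      intro J
      unfold nM
      rw [if_neg h, one_mul]
  · intro I
    unfold vM
    have h1 := I.2
    simp only [Fin.ext_iff]
    refine if_congr ?_ rfl rfl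
    omega
  · intro I
    by_cases h : tR (dB k m n) m n I
    · have hq : qR (dB k m n) m n I < m * (n + 1) := by
        unfold tR at h
        unfold qR
        omega
      obtain ⟨g1, g2⟩ := q_lt hq
      have hqD : qR (dB k m n) m n I ≤ dB k m n := by
        have : (m + 1) * (n + 1) = m * (n + 1) + (n + 1) := by ring
        omega
      refine ⟨n + 1 + qR (dB k m n) m n I / (n + 1), yc (dB k m n) m n I, by omega, ?_, ?_, rfl⟩
      · have := yc_le hc hD (I := I)
        omega
      · have h1 := rq_le (D := dB k m n) (tB k m n) A b hqD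
        have h2 := small_E (D := dB k m n) (tB k m n) (X := gB (dB k m n) ^ k) rfl
        have h5 : (0 : ℝ) ≤ 4 * (((dB k m n : ℕ) : ℝ) + 1) := by positivity
        have h6 := (mul_le_mul_of_nonneg_right h1 h5).trans h2
        have h4 : (1 : ℝ) / 2 ^ (gB (dB k m n) ^ k) ≤ 1 := by
          rw [div_le_one (by positivity)]
          exact one_le_pow₀ (by norm_num)
        have h7 := xz_near (D := dB k m n) (c₁ := qR (dB k m n) m n I % (n + 1))
          (c₂ := n + 1 + qR (dB k m n) m n I / (n + 1)) (by omega)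
          (Nat.lt_of_lt_of_le (Nat.lt_succ_of_le g2) (Nat.le_add_right _ _))
          (ρ := rq (dB k m n) m n (dd (tB k m n) A b) (qR (dB k m n) m n I)) (h6.trans h4)
        unfold xv
        dsimp only
        rw [if_pos h]
        unfold xq
        refine h7.trans ?_
        have h8 : 0 ≤ |rq (dB k m n) m n (dd (tB k m n) A b) (qR (dB k m n) m n I)| *
            (((dB k m n : ℕ) : ℝ) + 1) := by positivity
        linarith
    · refine ⟨xc (dB k m n) m n I, yc (dB k m n) m n I, ?_, ?_, ?_, rfl⟩
      · have := xc_le hc (I := I)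
        omega
      · have := yc_le hc hD (I := I)
        omega
      · unfold xv
        dsimp only
        rw [if_neg h, sub_self, abs_zero]
        positivity
  · rw [← Set.ncard_image_of_injective _ Fin.val_injective]
    refine (Set.ncard_le_ncard (t := ((Finset.Ico (2 * gB (dB k m n) + 2 * (m * (n + 1)))
      (2 * gB (dB k m n) + 4 * (m * (n + 1))) : Finset ℕ) : Set ℕ)) ?_
      (Finset.finite_toSet _)).trans ?_
    · rintro _ ⟨I, hI, rfl⟩
      by_contra h
      have h1 : ¬ tR (dB k m n) m n I := by
        intro h2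
        exact h (Finset.mem_coe.2 (Finset.mem_Ico.2 h2))
      refine hI (xc (dB k m n) m n I) ?_
      unfold xv
      dsimp only
      rw [if_neg h1]
    · rw [Set.ncard_coe_finset, Nat.card_Ico]
      unfold rB
      have : (m + 2) * (n + 1) = m * (n + 1) + 2 * (n + 1) := by ring
      omega

end Pool.Agent.H37.BP
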