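import Pool.Agent.H37.BP.Lag

/-! The conditions on the polynomial, and their solvability. -/

set_option autoImplicit false

namespace Pool.Agent.H37.BP

open Finset Polynomial

/-- The cells which are used. -/
def pat (m n c r : ℕ) : Prop :=
  (c ≤ n ∧ r < (m + 1) * (n + 1) ∧ r % (n + 1) = c) ∨
    (n < c ∧ c ≤ n + m ∧ r / (n + 1) = c - (n + 1))

instance (m n c r : ℕ) : Decidable (pat m n c r) := by unfold pat; infer_instance

/-- The row of a pair. -/
def rw' (n i j : ℕ) : ℕ := i * (n + 1) + j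

theorem rw'_mod {n i j : ℕ} (hj : j ≤ n) : rw' n i j % (n + 1) = j := by
  unfold rw'
  rw [mul_comm, Nat.mul_add_mod, Nat.mod_eq_of_lt (by omega)]

theorem rw'_div {n i j : ℕ} (hj : j ≤ n) : rw' n i j / (n + 1) = i := by
  unfold rw'
  rw [mul_comm, Nat.mul_add_div (by omega), Nat.div_eq_of_lt (by omega), add_zero]

theorem rw'_lt {m n i j : ℕ} (hi : i ≤ m) (hj : j ≤ n) : rw' n i j < (m + 1) * (n + 1) := by
  unfold rw'
  have h1 : i * (n + 1) ≤ m * (n + 1) := Nat.mul_le_mul_right _ hi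
  have h2 : (m + 1) * (n + 1) = m * (n + 1) + (n + 1) := by ring
  omega

theorem pat_iff {m n c i j : ℕ} (hi : i < m) (hj : j ≤ n) :
    pat m n c (rw' n i j) ↔ c = j ∨ c = n + 1 + i := by
  unfold pat
  rw [rw'_mod hj, rw'_div hj]
  have := rw'_lt hi.le hj
  omega

/-- The product of the distances to the additional zeros. -/
noncomputable def ps (m r : ℕ) : ℝ := ∏ l ∈ range m, ((r : ℝ) - ((l : ℝ) - m))

theorem ps_pos (m r : ℕ) : 0 < ps m r := by
  refine prod_pos fun l hl => ?_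
  have h1 : (l : ℝ) < m := by exact_mod_cast mem_range.1 hl
  have h2 : (0 : ℝ) ≤ r := Nat.cast_nonneg _
  linarith

theorem ps_fact (m r : ℕ) : (r.factorial : ℝ) * ps m r = ((r + m).factorial : ℝ) := by
  have h : ps m r = (((r + 1).ascFactorial m : ℕ) : ℝ) := by
    unfold ps
    rw [Nat.ascFactorial_eq_prod_range]
    push_cast
    rw [← prod_range_reflect]
    refine prod_congr rfl fun l hl => ?_
    have hl := mem_range.1 hl
    rw [Nat.cast_sub (by omega), Nat.cast_sub (by omega)]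
    push_cast
    ring
  rw [h, ← Nat.factorial_mul_ascFactorial]
  push_cast
  ring

variable (D m n : ℕ)

/-- The unused rows of a column. -/
def Zs (j : ℕ) : Finset ℕ := range (D + 1) \ (range (m + 1)).image fun i => rw' n i j

/-- The polynomial of a column. -/
noncomputable def Gp (j : ℕ) : ℝ[X] :=
  (∏ r ∈ Zs D m n j, (X - C (r : ℝ))) * ∏ l ∈ range m, (X - C ((l : ℝ) - m))

variable {D m n}

theorem rw'_inj {n j : ℕ} : Function.Injective fun i => rw' n i j := by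
  intro a b h
  unfold rw' at h
  have h1 : a * (n + 1) = b * (n + 1) := by simpa using h
  exact Nat.eq_of_mul_eq_mul_right (by omega) h1

theorem image_sub (hD : (m + 1) * (n + 1) ≤ D + 1) {j : ℕ} (hj : j ≤ n) :
    ((range (m + 1)).image fun i => rw' n i j) ⊆ range (D + 1) := by
  intro r hr
  obtain ⟨i, hi, rfl⟩ := mem_image.1 hr
  have := rw'_lt (show i ≤ m by have := mem_range.1 hi; omega) hj
  exact mem_range.2 (by omega)

theorem Zs_card (hD : (m + 1) * (n + 1) ≤ D + 1) {j : ℕ} (hj : j ≤ n) :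
    (Zs D m n j).card + m = D := by
  unfold Zs
  rw [card_sdiff_of_subset (image_sub hD hj), card_image_of_injective _ rw'_inj, card_range,
    card_range]
  have : m + 1 ≤ D + 1 := by
    calc m + 1 = (m + 1) * 1 := (mul_one _).symm
      _ ≤ (m + 1) * (n + 1) := Nat.mul_le_mul_left _ (by omega)
      _ ≤ D + 1 := hD
  omega

theorem Gp_deg (hD : (m + 1) * (n + 1) ≤ D + 1) {j : ℕ} (hj : j ≤ n) :
    (Gp D m n j).natDegree ≤ D := by
  unfold Gp
  refine natDegree_mul_le.trans ?_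
  rw [natDegree_prod_of_monic _ _ fun t _ => monic_X_sub_C _,
    natDegree_prod_of_monic _ _ fun t _ => monic_X_sub_C _]
  simp only [natDegree_X_sub_C, sum_const, smul_eq_mul, mul_one, card_range]
  exact (Zs_card hD hj).le

theorem Gp_zero {j r : ℕ} (h : r ∈ Zs D m n j) : (Gp D m n j).eval (r : ℝ) = 0 := by
  unfold Gp
  rw [eval_mul, eval_prod, prod_eq_zero h, zero_mul]
  simp

theorem Gp_zero' {j l : ℕ} (h : l < m) : (Gp D m n j).eval ((l : ℝ) - m) = 0 := by
  unfold Gp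
  rw [eval_mul, eval_prod, eval_prod, prod_eq_zero (mem_range.2 h) (by simp), mul_zero]

/-- The important values of these polynomials. -/
theorem Gp_val (hD : (m + 1) * (n + 1) ≤ D + 1) {i j : ℕ} (hi : i ≤ m) (hj : j ≤ n) :
    (Gp D m n j).eval (rw' n i j : ℝ) * (((n : ℝ) + 1) ^ m * w m i) =
      w D (rw' n i j) * ps m (rw' n i j) := by
  have hr : rw' n i j ∈ range (D + 1) := by
    have := rw'_lt hi hj
    exact mem_range.2 (by omega)
  have e1 : (range (D + 1)).erase (rw' n i j) = Zs D m n j ∪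
      ((range (m + 1)).erase i).image fun i' => rw' n i' j := by
    ext t
    simp only [Zs, mem_erase, mem_union, mem_sdiff, mem_image, not_exists, not_and]
    constructor
    · rintro ⟨h1, h2⟩
      by_cases h3 : ∃ i', i' ∈ range (m + 1) ∧ rw' n i' j = t
      · right
        obtain ⟨i', h4, rfl⟩ := h3
        exact ⟨i', ⟨fun h => h1 (by rw [h]), h4⟩, rfl⟩
      · left
        exact ⟨h2, fun i' h4 h5 => h3 ⟨i', h4, h5⟩⟩
    · rintro (⟨h1, h2⟩ | ⟨i', ⟨h1, h2⟩, rfl⟩)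
      · exact ⟨fun h => h2 i (mem_range.2 (by omega)) h.symm, h1⟩
      · exact ⟨fun h => h1 (rw'_inj h), image_sub hD hj (mem_image.2 ⟨i', h2, rfl⟩)⟩
  have hdis : Disjoint (Zs D m n j) (((range (m + 1)).erase i).image fun i' => rw' n i' j) := by
    rw [disjoint_left]
    intro t h1 h2
    obtain ⟨i', h3, rfl⟩ := mem_image.1 h2
    unfold Zs at h1
    rw [mem_sdiff] at h1
    exact h1.2 (mem_image.2 ⟨i', mem_of_mem_erase h3, rfl⟩)
  have e2 : w D (rw' n i j) = (∏ t ∈ Zs D m n j, ((rw' n i j : ℝ) - t)) *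
      (((n : ℝ) + 1) ^ m * w m i) := by
    unfold w
    rw [e1, prod_union hdis, prod_image fun a _ b _ h => rw'_inj h]
    congr 1
    have e3 : ∀ i' ∈ (range (m + 1)).erase i, ((rw' n i j : ℕ) : ℝ) - ((rw' n i' j : ℕ) : ℝ) =
        ((n : ℝ) + 1) * ((i : ℝ) - i') := by
      intro i' _
      unfold rw'
      push_cast
      ring
    rw [prod_congr rfl e3, prod_mul_distrib, prod_const, card_erase_of_mem
      (mem_range.2 (by omega)), card_range, Nat.add_sub_cancel]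
  unfold Gp ps
  rw [eval_mul, eval_prod, eval_prod, e2]
  simp only [eval_sub, eval_X, eval_C]
  ring

/-- The common zeros. -/
noncomputable def rts (D m n j : ℕ) : Finset ℝ :=
  ((Zs D m n j).image fun r : ℕ => (r : ℝ)) ∪ (range m).image fun l : ℕ => (l : ℝ) - m

theorem rts_card (hD : (m + 1) * (n + 1) ≤ D + 1) {j : ℕ} (hj : j ≤ n) :
    (rts D m n j).card = D := by
  unfold rts
  rw [card_union_of_disjoint, card_image_of_injective _ Nat.cast_injective,
    card_image_of_injective, card_range, Zs_card hD hj]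
  · intro a b h
    have h1 : (a : ℝ) = b := by linarith [show (a : ℝ) - m = (b : ℝ) - m from h]
    exact_mod_cast h1
  · rw [disjoint_left]
    intro x h1 h2
    obtain ⟨r, -, rfl⟩ := mem_image.1 h1
    obtain ⟨l, hl, h3⟩ := mem_image.1 h2
    have h4 : (l : ℝ) < m := by exact_mod_cast mem_range.1 hl
    have h5 : (0 : ℝ) ≤ r := Nat.cast_nonneg _
    linarith

theorem not_rts {i j : ℕ} (hi : i ≤ m) : ((rw' n i j : ℕ) : ℝ) ∉ rts D m n j := by
  unfold rts
  rw [mem_union, not_or]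
  constructor
  · intro h
    obtain ⟨r, h1, h2⟩ := mem_image.1 h
    have h3 : r = rw' n i j := by exact_mod_cast h2
    unfold Zs at h1
    rw [mem_sdiff] at h1
    exact h1.2 (mem_image.2 ⟨i, mem_range.2 (by omega), h3.symm⟩)
  · intro h
    obtain ⟨l, hl, h3⟩ := mem_image.1 h
    have h4 : (l : ℝ) < m := by exact_mod_cast mem_range.1 hl
    have h5 : (0 : ℝ) ≤ ((rw' n i j : ℕ) : ℝ) := Nat.cast_nonneg _
    linarith

/-! ### Rows -/

/-- The third zero of a row. -/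
noncomputable def xz (c₁ c₂ : ℕ) (ρ : ℝ) : ℝ := c₂ + ρ * ((c₂ : ℝ) - c₁) / (1 - ρ)

theorem small_rho {D : ℕ} {ρ : ℝ} (hρ : |ρ| * (4 * ((D : ℝ) + 1)) ≤ 1) : |ρ| ≤ 1 / 4 := by
  have h1 : (0 : ℝ) ≤ D := Nat.cast_nonneg _
  nlinarith [abs_nonneg ρ]

theorem xz_near {D c₁ c₂ : ℕ} (h2 : c₂ ≤ D) (h12 : c₁ < c₂) {ρ : ℝ}
    (hρ : |ρ| * (4 * ((D : ℝ) + 1)) ≤ 1) : |xz c₁ c₂ ρ - c₂| ≤ 2 * (|ρ| * (D + 1)) := by
  have h3 := small_rho hρ
  have h4 := (abs_le.1 h3).2
  have h5 : (c₂ : ℝ) ≤ D := by exact_mod_cast h2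
  have h6 : (c₁ : ℝ) < c₂ := by exact_mod_cast h12
  have h7 : (0 : ℝ) ≤ c₁ := Nat.cast_nonneg _
  have h8 : 0 < 1 - ρ := by linarith
  unfold xz
  rw [add_sub_cancel_left, abs_div, abs_mul, abs_of_pos h8, abs_of_pos (by linarith : (0:ℝ) <
    (c₂ : ℝ) - c₁), div_le_iff₀ h8]
  have h9 : |ρ| * ((c₂ : ℝ) - c₁) ≤ |ρ| * (D + 1) :=
    mul_le_mul_of_nonneg_left (by linarith) (abs_nonneg _)
  have h10 : 0 ≤ |ρ| * (D + 1) := mul_nonneg (abs_nonneg _) (by linarith)
  nlinarith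

theorem row_rel {D c₁ c₂ : ℕ} (h2 : c₂ ≤ D) (h12 : c₁ < c₂) {P : ℝ[X]} (hP : P.natDegree ≤ D)
    (h0 : ∀ c ≤ D, c ≠ c₁ → c ≠ c₂ → P.eval (c : ℝ) = 0) {ρ : ℝ}
    (hρ : |ρ| * (4 * ((D : ℝ) + 1)) ≤ 1) : P.eval (xz c₁ c₂ ρ) = 0 ↔
      P.eval (c₂ : ℝ) = -ρ * (w D c₂ / w D c₁) * P.eval (c₁ : ℝ) := by
  have h3 := small_rho hρ
  have h4 := (abs_le.1 h3).2
  have h8 : 0 < 1 - ρ := by linarith
  have h6 : (c₁ : ℝ) < c₂ := by exact_mod_cast h12
  have h9 : 0 < (c₂ : ℝ) - c₁ := by linarith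
  have hne : c₂ ≠ c₁ := by omega
  have hw1 := w_ne (show c₁ ≤ D by omega)
  have hw2 := w_ne h2
  have hnear : |xz c₁ c₂ ρ - c₂| < 1 := by
    have := xz_near h2 h12 hρ
    linarith
  let Q : ℝ := ∏ t ∈ ((range (D + 1)).erase c₁).erase c₂, (xz c₁ c₂ ρ - t)
  have hQ : Q ≠ 0 := by
    refine prod_ne_zero_iff.2 fun t ht => ?_
    intro h
    have h10 : xz c₁ c₂ ρ = t := by linarith
    rw [h10] at hnear
    have h11 : t ≠ c₂ := (mem_erase.1 ht).1
    have h12' : ((t : ℤ) - c₂ : ℤ) = 0 := by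
      have h13 : (|((t : ℤ) - c₂ : ℤ)| : ℝ) < 1 := by push_cast; exact hnear
      have h14 : |((t : ℤ) - c₂ : ℤ)| < 1 := by exact_mod_cast h13
      exact Int.abs_lt_one_iff.1 h14
    exact h11 (by omega)
  have e1 : lg D c₁ (xz c₁ c₂ ρ) = (w D c₁)⁻¹ * ((xz c₁ c₂ ρ - c₂) * Q) := by
    unfold lg
    rw [← mul_prod_erase _ _ (mem_erase.2 ⟨hne, mem_range.2 (show c₂ < D + 1 by omega)⟩)]
  have e2 : lg D c₂ (xz c₁ c₂ ρ) = (w D c₂)⁻¹ * ((xz c₁ c₂ ρ - c₁) * Q) := by
    unfold lg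
    rw [← mul_prod_erase _ _ (mem_erase.2 ⟨hne.symm, mem_range.2 (show c₁ < D + 1 by omega)⟩),
      erase_right_comm]
  rw [interp hP, sum_eq_add c₁ c₂ hne.symm, e1, e2]
  · have e3 : xz c₁ c₂ ρ - c₂ = ρ * ((c₂ : ℝ) - c₁) / (1 - ρ) := by unfold xz; ring
    have e4 : xz c₁ c₂ ρ - c₁ = ((c₂ : ℝ) - c₁) / (1 - ρ) := by
      unfold xz
      field_simp
      ring
    rw [e3, e4]
    have e5 : P.eval (c₁ : ℝ) * ((w D c₁)⁻¹ * (ρ * ((c₂ : ℝ) - c₁) / (1 - ρ) * Q)) +
        P.eval (c₂ : ℝ) * ((w D c₂)⁻¹ * (((c₂ : ℝ) - c₁) / (1 - ρ) * Q)) =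
        (((c₂ : ℝ) - c₁) / (1 - ρ) * Q / w D c₂) *
        (P.eval (c₂ : ℝ) - -ρ * (w D c₂ / w D c₁) * P.eval (c₁ : ℝ)) := by
      field_simp
      ring
    rw [e5, mul_eq_zero, sub_eq_zero]
    refine or_iff_right ?_
    exact div_ne_zero (mul_ne_zero (div_ne_zero h9.ne' h8.ne') hQ) hw2
  · intro c hc hcc
    rw [h0 c (by have := mem_range.1 hc; omega) hcc.1 hcc.2, zero_mul]
  · intro h
    exact absurd (mem_range.2 (by omega)) h
  · intro h
    exact absurd (mem_range.2 (by omega)) h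

/-! ### Columns -/

theorem col_sum (hD : (m + 1) * (n + 1) ≤ D + 1) {i : ℕ} (hi : i < m) (F : ℕ → ℝ)
    (h0 : ∀ r ≤ D, r / (n + 1) ≠ i → F r = 0) :
    ∑ r ∈ range (D + 1), F r = ∑ j ∈ range (n + 1), F (rw' n i j) := by
  have e : ∑ j ∈ range (n + 1), F (rw' n i j) =
      ∑ r ∈ (range (n + 1)).image (fun j => rw' n i j), F r := by
    rw [sum_image]
    intro a _ b _ h
    simpa [rw'] using h
  rw [e]
  symm
  refine sum_subset ?_ ?_
  · intro r hr
    obtain ⟨j, hj, rfl⟩ := mem_image.1 hr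
    have := rw'_lt (show i ≤ m by omega) (show j ≤ n by have := mem_range.1 hj; omega)
    exact mem_range.2 (by omega)
  · intro r hr hr2
    refine h0 r (by have := mem_range.1 hr; omega) fun h => hr2 ?_
    refine mem_image.2 ⟨r % (n + 1), mem_range.2 (Nat.mod_lt _ (by omega)), ?_⟩
    unfold rw'
    rw [← h]
    exact Nat.div_add_mod' r (n + 1)

/-- The product of the distances to `D + 1`. -/
noncomputable def qq (D : ℕ) : ℝ := ∏ t ∈ range (D + 1), ((D : ℝ) + 1 - t)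

theorem qq_pos (D : ℕ) : 0 < qq D := by
  refine prod_pos fun t ht => ?_
  have h1 : (t : ℝ) < D + 1 := by exact_mod_cast mem_range.1 ht
  linarith

theorem lg_last {D r : ℕ} (hr : r ≤ D) :
    lg D r ((D : ℝ) + 1) * (((D : ℝ) + 1 - r) * w D r) = qq D := by
  unfold lg qq
  rw [← mul_prod_erase _ _ (mem_range.2 (show r < D + 1 by omega))]
  have := w_ne hr
  field_simp

/-- The coefficient. -/
noncomputable def ro (D m n : ℕ) (d : ℕ → ℕ → ℝ) (i j : ℕ) : ℝ :=
  d i j * (((D : ℝ) + 1 - rw' n i j) / ps m (rw' n i j))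

/-- The scaling of an inequality. -/
noncomputable def La (D m n i : ℕ) : ℝ :=
  -(qq D * w D (n + 1 + i) / (((n : ℝ) + 1) ^ m * w m i))

/-- The common sign. -/
noncomputable def sg (D m n : ℕ) : ℝ := (-1) ^ (D + n + m)

theorem sg_sq : sg D m n * sg D m n = 1 := by
  unfold sg
  rw [← pow_add]
  exact Even.neg_one_pow ⟨_, rfl⟩

theorem La_sign {i : ℕ} (hi : i < m) (hc : n + m ≤ D) : 0 < sg D m n * La D m n i := by
  have h1 := w_sign (show n + 1 + i ≤ D by omega)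
  have h2 := w_sign (show i ≤ m by omega)
  obtain ⟨a, ha⟩ : ∃ a, D = n + 1 + i + a := ⟨D - (n + 1 + i), by omega⟩
  obtain ⟨b, hb⟩ : ∃ b, m = i + b := ⟨m - i, by omega⟩
  rw [show D - (n + 1 + i) = a by omega] at h1
  rw [show m - i = b by omega] at h2
  have h3 : sg D m n * (-1) * ((-1) ^ a * (-1) ^ b) = 1 := by
    unfold sg
    rw [← pow_succ, ← pow_add, ← pow_add]
    exact Even.neg_one_pow ⟨n + 1 + i + a + b, by omega⟩
  have h4 : ((-1 : ℝ) ^ a) * (-1) ^ a = 1 := by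
    rw [← pow_add]
    exact Even.neg_one_pow ⟨_, rfl⟩
  have h5 : ((-1 : ℝ) ^ b) * (-1) ^ b = 1 := by
    rw [← pow_add]
    exact Even.neg_one_pow ⟨_, rfl⟩
  have h6 : 0 < ((n : ℝ) + 1) ^ m := by positivity
  have hwm := w_ne (show i ≤ m by omega)
  have e : sg D m n * La D m n i = qq D * ((-1) ^ a * w D (n + 1 + i)) * ((-1) ^ b * w m i) /
      (((n : ℝ) + 1) ^ m * (w m i * w m i)) := by
    unfold La
    rw [eq_div_iff (mul_ne_zero h6.ne' (mul_ne_zero hwm hwm))]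
    have e1 : qq D * ((-1) ^ a * w D (n + 1 + i)) * ((-1) ^ b * w m i) =
        (sg D m n * (-1) * ((-1) ^ a * (-1) ^ b)) *
        (qq D * ((-1) ^ a * w D (n + 1 + i)) * ((-1) ^ b * w m i)) := by rw [h3, one_mul]
    rw [e1]
    field_simp
    calc _ = sg D m n * (-1) * (1 * 1) * (qq D * w D (n + 1 + i)) := by ring
      _ = sg D m n * (-1) * ((((-1) ^ a) * (-1) ^ a) * (((-1) ^ b) * (-1) ^ b)) *
          (qq D * w D (n + 1 + i)) := by rw [h4, h5]
      _ = _ := by ring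
  rw [e]
  have h7 : 0 < w m i * w m i := mul_self_pos.2 hwm
  have := qq_pos D
  positivity

/-- The value of an inequality. -/
theorem term_eq (hD : (m + 1) * (n + 1) ≤ D + 1) {d : ℕ → ℕ → ℝ} {i j : ℕ} (hi : i < m)
    (hj : j ≤ n) (hc : n + m ≤ D) (h : ℝ) :
    -ro D m n d i j * (w D (n + 1 + i) / w D j) * ((Gp D m n j).eval (rw' n i j : ℝ) * h) *
      lg D (rw' n i j) ((D : ℝ) + 1) = La D m n i * (d i j * (h / w D j)) := by
  have hr : rw' n i j ≤ D := by
    have := rw'_lt (show i ≤ m by omega) hj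
    omega
  have e1 := Gp_val hD (show i ≤ m by omega) hj
  have e2 := lg_last hr
  have h1 := w_ne hr
  have h2 := w_ne (show i ≤ m by omega)
  have h3 := w_ne (show j ≤ D by omega)
  have h4 := (ps_pos m (rw' n i j)).ne'
  have h5 : ((n : ℝ) + 1) ^ m ≠ 0 := by positivity
  have h6 : (D : ℝ) + 1 - rw' n i j ≠ 0 := by
    have : ((rw' n i j : ℕ) : ℝ) ≤ D := by exact_mod_cast hr
    intro h7
    linarith
  have e3 : (Gp D m n j).eval (rw' n i j : ℝ) =
      w D (rw' n i j) * ps m (rw' n i j) / (((n : ℝ) + 1) ^ m * w m i) := by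
    rw [eq_div_iff (mul_ne_zero h5 h2)]
    exact e1
  have e4 : lg D (rw' n i j) ((D : ℝ) + 1) = qq D / (((D : ℝ) + 1 - rw' n i j) *
      w D (rw' n i j)) := by
    rw [eq_div_iff (mul_ne_zero h6 h1)]
    exact e2
  rw [e3, e4]
  unfold ro La
  field_simp

/-! ### The conditions -/

/-- The conditions on the polynomial. -/
def Sys (D m n : ℕ) (d : ℕ → ℕ → ℝ) (z : ℕ → ℕ → ℝ) : Prop :=
  (∀ c ≤ D, ∀ r ≤ D, ¬ pat m n c r → ev D z (c : ℝ) (m + (r : ℝ)) = 0) ∧
  (∀ j ≤ n, ∀ l < m, ev D z (j : ℝ) (l : ℝ) = 0) ∧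
  (∀ i < m, ∀ j ≤ n, ev D z (xz j (n + 1 + i) (ro D m n d i j)) (m + (rw' n i j : ℝ)) = 0) ∧
  (∀ i < m, 0 ≤ ev D z ((n + 1 + i : ℕ) : ℝ) (m + ((D : ℝ) + 1))) ∧
  1 ≤ ev D z (n : ℝ) (m + (rw' n m n : ℝ))

/-- The sign of the normalisation. -/
theorem norm_sign (hD : (m + 1) * (n + 1) ≤ D + 1) (hc : n + m ≤ D)
    (hp : ∃ X, D = rw' n m n + m + 2 * X) :
    0 < sg D m n * w D n * (Gp D m n n).eval (rw' n m n : ℝ) := by
  obtain ⟨X, hX⟩ := hp
  have e1 := Gp_val hD (le_refl m) (le_refl n)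
  have h1 := w_sign (le_refl m)
  rw [Nat.sub_self, pow_zero, one_mul] at h1
  have h2 := w_sign (show n ≤ D by omega)
  have h3 := w_sign (show rw' n m n ≤ D by omega)
  have h4 := ps_pos m (rw' n m n)
  have h5 : 0 < ((n : ℝ) + 1) ^ m := by positivity
  have h6 : sg D m n = (-1) ^ (D - n) * (-1) ^ (D - rw' n m n) := by
    unfold sg
    rw [← pow_add]
    refine neg_one_pow_congr ?_
    obtain ⟨a, ha⟩ : ∃ a, D = n + a := ⟨D - n, by omega⟩
    rw [Nat.even_iff, Nat.even_iff]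
    omega
  have h7 : 0 < ((-1) ^ (D - n) * w D n) * ((-1) ^ (D - rw' n m n) * w D (rw' n m n)) *
      ps m (rw' n m n) := mul_pos (mul_pos h2 h3) h4
  have h8 : ((-1) ^ (D - n) * w D n) * ((-1) ^ (D - rw' n m n) * w D (rw' n m n)) *
      ps m (rw' n m n) = (sg D m n * w D n * (Gp D m n n).eval (rw' n m n : ℝ)) *
        (((n : ℝ) + 1) ^ m * w m m) := by
    rw [h6]
    calc _ = ((-1) ^ (D - n) * w D n) * (-1) ^ (D - rw' n m n) *
          (w D (rw' n m n) * ps m (rw' n m n)) := by ring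
      _ = _ := by rw [← e1]; ring
  rw [h8] at h7
  exact pos_of_mul_pos_left h7 (mul_pos h5 h1).le

theorem forth (hD : (m + 1) * (n + 1) ≤ D + 1) (hc : n + m ≤ D)
    (hp : ∃ X, D = rw' n m n + m + 2 * X) {d : ℕ → ℕ → ℝ}
    (hρ : ∀ i < m, ∀ j ≤ n, |ro D m n d i j| * (4 * ((D : ℝ) + 1)) ≤ 1) {z : ℕ → ℕ → ℝ}
    (hz : Sys D m n d z) : ∃ H : ℕ → ℝ, 0 < H n ∧
      ∀ i < m, 0 ≤ ∑ j ∈ range (n + 1), d i j * H j := by
  obtain ⟨hZ, hC, hR, hI, hN⟩ := hz
  -- the columns of the unknowns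
  have hy : ∀ j ≤ n, (Gp D m n j).eval (rw' n m j : ℝ) ≠ 0 := by
    intro j hj h
    have e1 := Gp_val hD (le_refl m) hj
    rw [h, zero_mul] at e1
    have h1 := w_ne (show rw' n m j ≤ D by
      have := rw'_lt (le_refl m) hj
      omega)
    exact (mul_ne_zero h1 (ps_pos m _).ne') e1.symm
  let h : ℕ → ℝ := fun j => ev D z (j : ℝ) (m + (rw' n m j : ℝ)) /
    (Gp D m n j).eval (rw' n m j : ℝ)
  have hcol : ∀ j ≤ n, ∀ i ≤ m, ev D z (j : ℝ) (m + (rw' n i j : ℝ)) =
      (Gp D m n j).eval (rw' n i j : ℝ) * h j := by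
    intro j hj i hi
    have e1 := prop_of_roots (P := colP D m z (j : ℝ)) (Q := Gp D m n j) (colP_deg _ _ _ _)
      (Gp_deg hD hj) (rts_card hD hj) (fun x hx => ?_) (fun x hx => ?_)
      (not_rts (D := D) (j := j) (le_refl m)) (rw' n i j : ℝ)
    · rw [colP_eval, colP_eval] at e1
      simp only [h]
      rw [mul_div_assoc', eq_div_iff (hy j hj)]
      exact e1
    · rw [colP_eval]
      rcases mem_union.1 hx with hx | hx
      · obtain ⟨r, h1, rfl⟩ := mem_image.1 hx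
        have h2 := h1
        unfold Zs at h2
        rw [mem_sdiff, mem_range] at h2
        refine hZ j (by omega) r (by omega) fun hpat => h2.2 ?_
        rcases hpat with ⟨-, h3, h4⟩ | ⟨h3, -⟩
        · refine mem_image.2 ⟨r / (n + 1), mem_range.2 (Nat.div_lt_of_lt_mul
            (by rwa [mul_comm] at h3)), ?_⟩
          unfold rw'
          rw [← h4]
          exact Nat.div_add_mod' r (n + 1)
        · omega
      · obtain ⟨l, h1, rfl⟩ := mem_image.1 hx
        rw [add_sub_cancel]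
        exact hC j hj l (mem_range.1 h1)
    · rcases mem_union.1 hx with hx | hx
      · obtain ⟨r, h1, rfl⟩ := mem_image.1 hx
        exact Gp_zero h1
      · obtain ⟨l, h1, rfl⟩ := mem_image.1 hx
        exact Gp_zero' (mem_range.1 h1)
  -- the rows
  have hrow : ∀ i < m, ∀ j ≤ n, ev D z ((n + 1 + i : ℕ) : ℝ) (m + (rw' n i j : ℝ)) =
      -ro D m n d i j * (w D (n + 1 + i) / w D j) * ((Gp D m n j).eval (rw' n i j : ℝ) * h j) := by
    intro i hi j hj
    have hr : rw' n i j ≤ D := by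
      have := rw'_lt (show i ≤ m by omega) hj
      omega
    have e1 := (row_rel (D := D) (c₁ := j) (c₂ := n + 1 + i) (by omega) (by omega)
      (P := rowP D z (m + (rw' n i j : ℝ))) (rowP_deg _ _ _) (fun c hcD h1 h2 => by
        rw [rowP_eval]
        refine hZ c hcD _ hr fun hpat => ?_
        rcases (pat_iff hi hj).1 hpat with h3 | h3
        · exact h1 h3
        · exact h2 h3) (hρ i hi j hj)).1 (by rw [rowP_eval]; exact hR i hi j hj)
    rw [rowP_eval, rowP_eval] at e1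
    rw [e1, hcol j hj i hi.le]
  refine ⟨fun j => sg D m n * (h j / w D j), ?_, fun i hi => ?_⟩
  · have e1 := norm_sign hD hc hp
    have e2 := hcol n le_rfl m le_rfl
    rw [e2] at hN
    have h1 := w_ne (show n ≤ D by omega)
    have h2 : 0 < (Gp D m n n).eval (rw' n m n : ℝ) * h n := by linarith
    have h3 := mul_pos e1 h2
    have h4 : sg D m n * w D n * (Gp D m n n).eval (rw' n m n : ℝ) *
        ((Gp D m n n).eval (rw' n m n : ℝ) * h n) = (sg D m n * (h n / w D n)) *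
        ((w D n * (Gp D m n n).eval (rw' n m n : ℝ)) ^ 2) := by
      field_simp
    rw [h4] at h3
    exact pos_of_mul_pos_left h3 (sq_nonneg _)
  · have e1 := hI i hi
    rw [← colP_eval, interp (colP_deg _ _ _ _), col_sum hD hi] at e1
    · have e2 : ∑ j ∈ range (n + 1), (colP D m z ((n + 1 + i : ℕ) : ℝ)).eval
          ((rw' n i j : ℕ) : ℝ) * lg D (rw' n i j) ((D : ℝ) + 1) =
          (sg D m n * La D m n i) * ∑ j ∈ range (n + 1), d i j * (sg D m n * (h j / w D j)) := by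
        rw [mul_sum]
        refine sum_congr rfl fun j hj => ?_
        have hj : j ≤ n := by have := mem_range.1 hj; omega
        rw [colP_eval, hrow i hi j hj, term_eq hD hi hj hc]
        calc _ = (sg D m n * sg D m n) * (La D m n i * (d i j * (h j / w D j))) := by
              rw [sg_sq, one_mul]
          _ = _ := by ring
      rw [e2] at e1
      exact nonneg_of_mul_nonneg_right e1 (La_sign hi hc)
    · intro r hr hri
      rw [colP_eval, hZ (n + 1 + i) (by omega) r hr, zero_mul]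
      rintro (⟨h1, -⟩ | ⟨-, -, h1⟩)
      · omega
      · exact hri (by omega)

end Pool.Agent.H37.BP
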